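import Mathlib

/-!
The completion of a domain at a nonzero principal ideal: the generator is a nonzerodivisor and
every nonzero element is a power of the generator times an element not divisible by it.
-/

set_option linter.unusedSectionVars false

namespace Q276.HT

open Ideal

section

variable {A : Type*} [CommRing A] [IsDomain A] {I : Ideal A} {ξ : A}

/-- the canonical map to the completion -/
noncomputable abbrev toC (I : Ideal A) : A →+* AdicCompletion I A := algebraMap A (AdicCompletion I A)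

theorem evalₐ_toC (n : ℕ) (x : A) :
    AdicCompletion.evalₐ I n (toC I x) = Ideal.Quotient.mk (I ^ n) x := by
  exact AdicCompletion.evalₐ_of _ n x

theorem mem_pow_of_mul (hI : I = span {ξ}) (h0 : ξ ≠ 0) {m n : ℕ} {a : A}
    (h : ξ ^ m * a ∈ I ^ (n + m)) : a ∈ I ^ n := by
  rw [hI, Ideal.span_singleton_pow, Ideal.mem_span_singleton] at h ⊢
  obtain ⟨c, hc⟩ := h
  refine ⟨c, ?_⟩
  have h1 : ξ ^ m * a = ξ ^ m * (ξ ^ n * c) := by rw [hc]; ring
  exact mul_left_cancel₀ (pow_ne_zero _ h0) h1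

theorem factor_ev (m n : ℕ) (h : m ≤ n) (x : AdicCompletion I A) (a : A)
    (ha : AdicCompletion.evalₐ I n x = Ideal.Quotient.mk (I ^ n) a) :
    AdicCompletion.evalₐ I m x = Ideal.Quotient.mk (I ^ m) a := by
  obtain ⟨f, rfl⟩ := AdicCompletion.mk_surjective I A x
  rw [AdicCompletion.evalₐ_mk] at ha ⊢
  rw [Ideal.Quotient.eq] at ha ⊢
  have h1 := AdicCompletion.Ideal.mk_eq_mk I h f
  rw [Ideal.Quotient.eq] at h1
  have h2 := Ideal.pow_le_pow_right h ha
  have e : f.val m - a = -(f.val n - f.val m) + (f.val n - a) := by ring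
  rw [e]
  exact add_mem (neg_mem h1) h2

theorem toC_mul_eq_zero (hI : I = span {ξ}) (h0 : ξ ≠ 0) {y : AdicCompletion I A}
    (h : toC I ξ * y = 0) : y = 0 := by
  refine AdicCompletion.ext_evalₐ fun n => ?_
  obtain ⟨a, ha⟩ := Ideal.Quotient.mk_surjective (AdicCompletion.evalₐ I (n + 1) y)
  rw [factor_ev n (n + 1) (Nat.le_succ n) y a ha.symm, map_zero, Ideal.Quotient.eq_zero_iff_mem]
  have h1 := congrArg (AdicCompletion.evalₐ I (n + 1)) h
  rw [map_mul, evalₐ_toC, ← ha, ← map_mul, map_zero, Ideal.Quotient.eq_zero_iff_mem] at h1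
  exact mem_pow_of_mul (m := 1) hI h0 (by rwa [pow_one])

theorem toC_pow_mul_eq_zero (hI : I = span {ξ}) (h0 : ξ ≠ 0) (m : ℕ) {y : AdicCompletion I A}
    (h : toC I ξ ^ m * y = 0) : y = 0 := by
  induction m with
  | zero => simpa using h
  | succ m ih =>
    apply ih
    apply toC_mul_eq_zero hI h0
    rw [← h]; ring

theorem exists_div (hI : I = span {ξ}) (h0 : ξ ≠ 0) (m : ℕ) (x : AdicCompletion I A)
    (hx : AdicCompletion.evalₐ I m x = 0) : ∃ y, x = toC I ξ ^ m * y := by
  obtain ⟨f, rfl⟩ := AdicCompletion.mk_surjective I A x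
  have hm : ∀ {i j : ℕ}, i ≤ j → f.val j - f.val i ∈ I ^ i := by
    intro i j h
    have h1 := AdicCompletion.Ideal.mk_eq_mk I h f
    rwa [Ideal.Quotient.eq] at h1
  rw [AdicCompletion.evalₐ_mk, Ideal.Quotient.eq_zero_iff_mem] at hx
  have hdvd : ∀ a : A, a ∈ I ^ m → ∃ w, a = ξ ^ m * w := by
    intro a h1
    rw [hI, Ideal.span_singleton_pow, Ideal.mem_span_singleton] at h1
    exact h1
  have hfm : ∀ n, ∃ w, f.val (n + m) = ξ ^ m * w := by
    intro n
    have h1 : f.val (n + m) ∈ I ^ m := by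
      have h2 := hm (Nat.le_add_left m n)
      have e : f.val (n + m) = (f.val (n + m) - f.val m) + f.val m := by ring
      rw [e]
      exact add_mem h2 hx
    exact hdvd _ h1
  choose w hw using hfm
  let g : AdicCompletion.AdicCauchySequence I A := AdicCompletion.AdicCauchySequence.mk I A w (by
    intro n
    rw [SModEq.sub_mem, smul_eq_mul, Ideal.mul_top]
    apply mem_pow_of_mul (m := m) hI h0
    have h1 := hm (show n + m ≤ n + 1 + m by omega)
    rw [hw, hw] at h1
    have e : ξ ^ m * (w n - w (n + 1)) = -(ξ ^ m * w (n + 1) - ξ ^ m * w n) := by ring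
    rw [e]
    exact neg_mem h1)
  refine ⟨AdicCompletion.mk I A g, ?_⟩
  refine AdicCompletion.ext_evalₐ fun n => ?_
  rw [map_mul, map_pow, evalₐ_toC, AdicCompletion.evalₐ_mk, AdicCompletion.evalₐ_mk, ← map_pow,
    ← map_mul, Ideal.Quotient.eq]
  have e : f.val n - ξ ^ m * g.val n = -(f.val (n + m) - f.val n) := by
    rw [hw]
    change f.val n - ξ ^ m * w n = _
    ring
  rw [e]
  exact neg_mem (hm (Nat.le_add_right n m))

/-- Every nonzero element is a power of the generator times an element not killed by the first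
evaluation. -/
theorem exists_val (hI : I = span {ξ}) (h0 : ξ ≠ 0) {x : AdicCompletion I A} (hx : x ≠ 0) :
    ∃ m y, x = toC I ξ ^ m * y ∧ AdicCompletion.evalₐ I 1 y ≠ 0 := by
  classical
  have h1 : ∃ n, AdicCompletion.evalₐ I n x ≠ 0 := by
    by_contra h
    push Not at h
    exact hx (AdicCompletion.ext_evalₐ fun n => by rw [h n, map_zero])
  obtain ⟨n, hn, hmin⟩ : ∃ n, AdicCompletion.evalₐ I n x ≠ 0 ∧
      ∀ m < n, AdicCompletion.evalₐ I m x = 0 :=
    ⟨Nat.find h1, Nat.find_spec h1, fun m hm => by simpa using Nat.find_min h1 hm⟩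
  have hn0 : n ≠ 0 := by
    rintro rfl
    apply hn
    have : Subsingleton (A ⧸ I ^ 0) := by
      rw [pow_zero, Ideal.one_eq_top]; exact Ideal.Quotient.subsingleton_iff.2 rfl
    exact Subsingleton.elim _ _
  obtain ⟨m, rfl⟩ := Nat.exists_eq_succ_of_ne_zero hn0
  obtain ⟨y, hy⟩ := exists_div hI h0 m x (hmin m (Nat.lt_succ_self m))
  refine ⟨m, y, hy, fun h => hn ?_⟩
  obtain ⟨y', hy'⟩ := exists_div hI h0 1 y h
  rw [hy, hy', pow_one, ← mul_assoc, ← pow_succ, map_mul, map_pow, evalₐ_toC, ← map_pow]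
  have h2 : Ideal.Quotient.mk (I ^ (m + 1)) (ξ ^ (m + 1)) = 0 := by
    rw [Ideal.Quotient.eq_zero_iff_mem]
    refine Ideal.pow_mem_pow ?_ _
    rw [hI]; exact Ideal.mem_span_singleton_self ξ
  rw [h2, zero_mul]

end

end Q276.HT
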