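import Mathlib
import Pool.Agent.W292.FM.Cyclo
import Pool.Agent.W292.FM.Galois

/-!
Primitive `p`-power roots of unity in the algebraic closure of `ℚ_[p]` are conjugate, and integral
elements of the cyclotomic fields are integral combinations of roots of unity.
-/

set_option linter.unusedSectionVars false

namespace Q276.HT

open Polynomial Pool.Agent.W292.FM

variable {p : ℕ} [hp : Fact p.Prime]

theorem prim_ne_one {z : PadicAlgCl p} {n : ℕ} (hz : IsPrimitiveRoot z (p ^ (n + 1))) : z ≠ 1 := by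
  rintro rfl
  have h := norm_sub_one_pow_totient hz
  have h0 : Nat.totient (p ^ (n + 1)) ≠ 0 := by
    have := Nat.totient_pos.2 (pow_pos hp.out.pos (n + 1)); omega
  rw [sub_self, norm_zero, zero_pow h0] at h
  have : (0 : ℝ) < (p : ℝ)⁻¹ := inv_pos.2 (by exact_mod_cast hp.out.pos)
  linarith

theorem minpoly_sub_one {z : PadicAlgCl p} {n : ℕ} (hz : IsPrimitiveRoot z (p ^ (n + 1))) :
    minpoly ℚ_[p] (z - 1) = (cyclotomic (p ^ (n + 1)) ℚ_[p]).comp (X + 1) := by
  have hint : IsIntegral ℚ_[p] (z - 1) := Algebra.IsIntegral.isIntegral _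
  have hX1 : (X + 1 : ℚ_[p][X]) = X + C 1 := by simp
  have hmon : ((cyclotomic (p ^ (n + 1)) ℚ_[p]).comp (X + 1)).Monic := by
    rw [hX1]; exact (cyclotomic.monic _ _).comp_X_add_C 1
  have hdeg : ((cyclotomic (p ^ (n + 1)) ℚ_[p]).comp (X + 1)).natDegree
      = Nat.totient (p ^ (n + 1)) := by
    rw [natDegree_comp, natDegree_cyclotomic, hX1, natDegree_X_add_C, mul_one]
  have hroot : aeval (z - 1) ((cyclotomic (p ^ (n + 1)) ℚ_[p]).comp (X + 1)) = 0 := by
    rw [aeval_comp]
    simp only [map_add, aeval_X, map_one, sub_add_cancel]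
    rw [aeval_def, eval₂_eq_eval_map, map_cyclotomic]
    exact (hz.isRoot_cyclotomic (pow_pos hp.out.pos _)).eq_zero
  symm
  refine eq_of_monic_of_dvd_of_natDegree_le (minpoly.monic hint) hmon
    (minpoly.dvd _ _ hroot) ?_
  rw [hdeg]
  by_contra hlt
  push Not at hlt
  set m := minpoly ℚ_[p] (z - 1) with hm
  have h1 := norm_term_le hz (fun i => m.coeff i) hlt
  have h2 : ∑ j ∈ Finset.range (Nat.totient (p ^ (n + 1))),
        algebraMap ℚ_[p] (PadicAlgCl p) (m.coeff j) * (z - 1) ^ j = aeval (z - 1) m := by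
    rw [aeval_eq_sum_range' (n := Nat.totient (p ^ (n + 1))) hlt]
    exact Finset.sum_congr rfl fun i _ => (Algebra.smul_def _ _).symm
  rw [h2, hm, minpoly.aeval, norm_zero, ← hm] at h1
  have h3 : m.coeff m.natDegree = 1 := (minpoly.monic hint).coeff_natDegree
  rw [h3, map_one, one_mul, norm_pow] at h1
  have h4 : 0 < ‖z - 1‖ := norm_pos_iff.2 (sub_ne_zero.2 (prim_ne_one hz))
  have h5 := pow_pos h4 m.natDegree
  linarith

theorem exists_gal {z z' : PadicAlgCl p} {n : ℕ} (hz : IsPrimitiveRoot z (p ^ (n + 1)))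
    (hz' : IsPrimitiveRoot z' (p ^ (n + 1))) : ∃ σ : Gal(PadicAlgCl p/ℚ_[p]), σ z = z' := by
  have h : IsConjRoot ℚ_[p] (z - 1) (z' - 1) := by
    unfold IsConjRoot
    rw [minpoly_sub_one hz, minpoly_sub_one hz']
  obtain ⟨σ, hσ⟩ := h.exists_algEquiv
  refine ⟨σ.symm, ?_⟩
  have h2 : σ z' = z := by
    have : σ (z' - 1) + 1 = z := by rw [hσ]; ring
    rw [map_sub, map_one] at this
    rw [← this]; ring
  rw [← h2, AlgEquiv.symm_apply_apply]

theorem norm_sub_one_lt_one {z : PadicAlgCl p} {n : ℕ} (hz : IsPrimitiveRoot z (p ^ (n + 1))) :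
    ‖z - 1‖ < 1 := by
  by_contra h
  push Not at h
  have h1 := norm_sub_one_pow_totient hz
  have h2 := one_le_pow₀ h (n := Nat.totient (p ^ (n + 1)))
  rw [h1] at h2
  have : (p : ℝ)⁻¹ < 1 := inv_lt_one_of_one_lt₀ (by exact_mod_cast hp.out.one_lt)
  linarith

/-- An integral element of `ℚ_p(ζ)` is an integral combination of powers of `ζ`. -/
theorem integral_rep {z : PadicAlgCl p} {n : ℕ} (hz : IsPrimitiveRoot z (p ^ (n + 1)))
    {a : PadicAlgCl p} (ha : a ∈ IntermediateField.adjoin ℚ_[p] {z}) (h1 : ‖a‖ ≤ 1) :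
    ∃ f : ℤ_[p][X], a = ∑ i ∈ Finset.range (f.natDegree + 1),
      algebraMap ℚ_[p] (PadicAlgCl p) (f.coeff i : ℚ_[p]) * z ^ i := by
  have hzint : IsIntegral ℚ_[p] z := Algebra.IsIntegral.isIntegral _
  have hint : IsIntegral ℚ_[p] (z - 1) := Algebra.IsIntegral.isIntegral _
  -- `a` as a polynomial in `z - 1` of degree `< φ`
  have ha2 : a ∈ Algebra.adjoin ℚ_[p] {z} := by
    rwa [← IntermediateField.adjoin_simple_toSubalgebra_of_isAlgebraic hzint.isAlgebraic]
  rw [Algebra.adjoin_singleton_eq_range_aeval] at ha2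
  obtain ⟨g, hg⟩ := ha2
  have hg' : aeval (z - 1) (g.comp (X + 1)) = a := by
    rw [aeval_comp]
    simpa using hg
  set m := minpoly ℚ_[p] (z - 1) with hm
  have hmon : m.Monic := minpoly.monic hint
  set r := (g.comp (X + 1)) %ₘ m with hr
  have hr1 : aeval (z - 1) r = a := by
    rw [← hg', hr]
    conv_rhs => rw [← modByMonic_add_div (g.comp (X + 1)) m]
    rw [map_add, map_mul, hm, minpoly.aeval, zero_mul, add_zero]
  have hmdeg : m.natDegree = Nat.totient (p ^ (n + 1)) := by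
    rw [hm, minpoly_sub_one hz, natDegree_comp, natDegree_cyclotomic,
      show (X + 1 : ℚ_[p][X]) = X + C 1 by simp, natDegree_X_add_C, mul_one]
  have htpos : 0 < Nat.totient (p ^ (n + 1)) := Nat.totient_pos.2 (pow_pos hp.out.pos _)
  have hrdeg : r.natDegree < Nat.totient (p ^ (n + 1)) := by
    rw [← hmdeg]
    apply natDegree_modByMonic_lt _ hmon
    intro h
    rw [h, natDegree_one] at hmdeg
    omega
  have hsum : ∑ j ∈ Finset.range (Nat.totient (p ^ (n + 1))),
        algebraMap ℚ_[p] (PadicAlgCl p) (r.coeff j) * (z - 1) ^ j = a := by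
    rw [← hr1, aeval_eq_sum_range' (n := Nat.totient (p ^ (n + 1))) hrdeg]
    exact Finset.sum_congr rfl fun i _ => (Algebra.smul_def _ _).symm
  have hcoef : ∀ i, ‖r.coeff i‖ ≤ 1 := by
    intro i
    rcases lt_or_ge i (Nat.totient (p ^ (n + 1))) with hi | hi
    · have h2 := norm_term_le hz (fun i => r.coeff i) hi
      rw [hsum, norm_mul, norm_pow] at h2
      have h3 : ‖algebraMap ℚ_[p] (PadicAlgCl p) (r.coeff i)‖ = ‖r.coeff i‖ :=
        PadicAlgCl.norm_extends p _
      rw [h3] at h2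
      have h4 := h2.trans h1
      have h5 := norm_sub_one_pow_totient hz
      have h6 : 0 < ‖z - 1‖ := norm_pos_iff.2 (sub_ne_zero.2 (prim_ne_one hz))
      have h7 : (p : ℝ)⁻¹ < ‖z - 1‖ ^ i := by
        rw [← h5]
        exact pow_lt_pow_right_of_lt_one₀ h6 (norm_sub_one_lt_one hz) hi
      have hp0 : (0 : ℝ) < p := by exact_mod_cast hp.out.pos
      have h8 : ‖r.coeff i‖ < p := by
        by_contra h
        push Not at h
        have : (1 : ℝ) < ‖r.coeff i‖ * ‖z - 1‖ ^ i := by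
          calc (1 : ℝ) = p * (p : ℝ)⁻¹ := (mul_inv_cancel₀ hp0.ne').symm
            _ < p * ‖z - 1‖ ^ i := mul_lt_mul_of_pos_left h7 hp0
            _ ≤ ‖r.coeff i‖ * ‖z - 1‖ ^ i :=
              mul_le_mul_of_nonneg_right h (pow_nonneg h6.le _)
        linarith
      have h9 := (Padic.norm_le_pow_iff_norm_lt_pow_add_one (r.coeff i) 0).2
        (by simpa using h8)
      simpa using h9
    · rw [coeff_eq_zero_of_natDegree_lt (by omega)]
      simp
  -- integral polynomial
  let b : ℕ → ℤ_[p] := fun i => ⟨r.coeff i, hcoef i⟩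
  let F : ℤ_[p][X] := ∑ i ∈ Finset.range (Nat.totient (p ^ (n + 1))), C (b i) * (X - 1) ^ i
  refine ⟨F, ?_⟩
  have hF : aeval z (F.map (algebraMap ℤ_[p] ℚ_[p])) = a := by
    rw [← hsum]
    simp only [F, Polynomial.map_sum, Polynomial.map_mul, Polynomial.map_pow, Polynomial.map_sub,
      map_X, Polynomial.map_one, map_C, map_sum, map_mul, map_pow, map_sub, aeval_X, map_one,
      aeval_C]
    rfl
  rw [← hF, aeval_eq_sum_range' (n := F.natDegree + 1)
    (lt_of_le_of_lt (natDegree_map_le) (Nat.lt_succ_self _))]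
  refine Finset.sum_congr rfl fun i _ => ?_
  rw [Algebra.smul_def, coeff_map]
  rfl

end Q276.HT
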