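import Mathlib
import Pool.Agent.W292.FM.Scalars
import Pool.Agent.W292.FM.Galois

/-!
Fontaine's field `B_dR` with its Galois action, as definitions with short names.
-/

namespace Q276.HT

open Pool.Agent.W292.FM

variable (l : ℕ) [hl : Fact l.Prime]

/-- the ring of integers of `ℂ_l` -/
def OC : Type := 𝓞_ℂ_[l]

/-- the ring structure of `OC l` -/
noncomputable def ringOC : CommRing (OC l) := (inferInstance : CommRing 𝓞_ℂ_[l])

noncomputable instance instCommRingOC : CommRing (OC l) := ringOC l

instance instFactOC : Fact (¬ IsUnit (l : OC l)) := fact_not_isUnit l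

instance instAdicOC : IsAdicComplete (Ideal.span {(l : OC l)}) (OC l) := isAdicComplete_int l

/-- the automorphism of the ring of integers of `ℂ_l` induced by `g ∈ Gal(ℚ̄_l/ℚ_l)`: the
restriction of the continuous extension of `g` to `ℂ_l` -/
noncomputable def galO (g : Gal(PadicAlgCl l/ℚ_[l])) : OC l ≃+* OC l := intMap l g

/-- Fontaine's field `B_dR`: Mathlib's `BDeRham` for the ring of integers of `ℂ_l` -/
def BdR : Type := BDeRham (OC l) l

/-- the ring structure of `B_dR` -/
noncomputable def ringBdR : CommRing (BdR l) :=
  (inferInstance : CommRing (Localization (genSub (OC l) l)))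

noncomputable instance instCommRingBdR : CommRing (BdR l) := ringBdR l

/-- the structure of `B_dR` as an algebra over `ℚ_l` -/
noncomputable def algBdR : Algebra ℚ_[l] (BdR l) :=
  (inferInstance : Algebra ℚ_[l] (Localization (genSub (OC l) l)))

noncomputable instance instAlgebraBdR : Algebra ℚ_[l] (BdR l) := algBdR l

/-- the action of `g ∈ Gal(ℚ̄_l/ℚ_l)` on `B_dR`, induced by its action on the ring of integers of
`ℂ_l` -/
noncomputable def galB (g : Gal(PadicAlgCl l/ℚ_[l])) : BdR l →ₗ[ℚ_[l]] BdR l :=
  (bdrAlg l (galO l g)).toLinearMap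

end Q276.HT
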