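import Mathlib
import Pool.Agent.Q276.HT.Conj

/-!
The sums `∑_{i < p^k} γ^i x` on the cyclotomic tower over `ℚ_[p]` (Tate's normalised traces).
-/

set_option linter.unusedSectionVars false

namespace Q276.HT

open Polynomial Pool.Agent.W292.FM

variable {p : ℕ} [hp : Fact p.Prime]

/-- The sum of the translates of `x` by the first `p ^ k` powers of `γ`. -/
noncomputable def S (γ : Gal(PadicAlgCl p/ℚ_[p])) (k : ℕ) (x : PadicAlgCl p) : PadicAlgCl p :=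
  ∑ i ∈ Finset.range (p ^ k), (γ ^ i) x

theorem S_add (γ : Gal(PadicAlgCl p/ℚ_[p])) (k : ℕ) (x y : PadicAlgCl p) :
    S γ k (x + y) = S γ k x + S γ k y := by
  simp only [S, map_add, Finset.sum_add_distrib]

theorem S_sub (γ : Gal(PadicAlgCl p/ℚ_[p])) (k : ℕ) (x y : PadicAlgCl p) :
    S γ k (x - y) = S γ k x - S γ k y := by
  simp only [S, map_sub, Finset.sum_sub_distrib]

theorem S_smul (γ : Gal(PadicAlgCl p/ℚ_[p])) (k : ℕ) (c : ℚ_[p]) (x : PadicAlgCl p) :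
    S γ k (algebraMap ℚ_[p] (PadicAlgCl p) c * x) = algebraMap ℚ_[p] (PadicAlgCl p) c * S γ k x := by
  simp only [S, map_mul, Finset.mul_sum, AlgEquiv.commutes]

theorem S_sum (γ : Gal(PadicAlgCl p/ℚ_[p])) (k : ℕ) (n : ℕ) (f : ℕ → PadicAlgCl p) :
    S γ k (∑ i ∈ Finset.range n, f i) = ∑ i ∈ Finset.range n, S γ k (f i) := by
  simp only [S, map_sum]
  rw [Finset.sum_comm]

theorem S_of_fixed (γ : Gal(PadicAlgCl p/ℚ_[p])) (k : ℕ) (x : PadicAlgCl p) (h : γ x = x) :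
    S γ k x = (p : PadicAlgCl p) ^ k * x := by
  have h2 : ∀ i : ℕ, (γ ^ i) x = x := by
    intro i
    induction i with
    | zero => simp
    | succ n ih => rw [pow_succ, AlgEquiv.mul_apply, h, ih]
  simp only [S, h2, Finset.sum_const, Finset.card_range, nsmul_eq_mul]
  push_cast
  ring

theorem S_gal (γ : Gal(PadicAlgCl p/ℚ_[p])) (k : ℕ) (x : PadicAlgCl p) :
    S γ k (γ x) = S γ k x + ((γ ^ p ^ k) x - x) := by
  have h : ∀ i : ℕ, (γ ^ i) (γ x) = (γ ^ (i + 1)) x := by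
    intro i; rw [pow_succ, AlgEquiv.mul_apply]
  simp only [S, h]
  have h3 := Finset.sum_range_succ (fun i => (γ ^ i) x) (p ^ k)
  have h4 := Finset.sum_range_succ' (fun i => (γ ^ i) x) (p ^ k)
  rw [h4] at h3
  simp only [pow_zero, AlgEquiv.one_apply] at h3
  linear_combination h3

theorem gal_pow_apply {γ : Gal(PadicAlgCl p/ℚ_[p])} {N u : ℕ}
    (h : ∀ y : PadicAlgCl p, y ^ N = 1 → γ y = y ^ u) {x : PadicAlgCl p} (hx : x ^ N = 1) (i : ℕ) :
    (γ ^ i) x = x ^ (u ^ i) := by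
  induction i with
  | zero => simp
  | succ n ih =>
    rw [pow_succ', AlgEquiv.mul_apply, ih, map_pow, h x hx, ← pow_mul]
    ring_nf

theorem one_add_pow_eq (hp2 : p ≠ 2) {m : ℕ} (hm : m ≠ 0) (k : ℕ) :
    ∃ c : ℕ, (1 + p ^ m) ^ p ^ k = 1 + p ^ (m + k) * c ∧ ¬ p ∣ c := by
  have hpo : Odd p := hp.out.odd_of_ne_two hp2
  have h1 : p ∣ (1 + p ^ m) - 1 := by
    rw [Nat.add_sub_cancel_left]; exact dvd_pow_self p hm
  have h2 : ¬ p ∣ 1 + p ^ m := by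
    intro h
    have h3 : p ∣ 1 := (Nat.dvd_add_left (dvd_pow_self p hm)).1 h
    exact hp.out.one_lt.ne' (Nat.dvd_one.1 h3)
  have h3 := Nat.emultiplicity_pow_sub_pow hp.out hpo h1 h2 (p ^ k)
  rw [one_pow, Nat.add_sub_cancel_left] at h3
  have h4 : ∀ j : ℕ, emultiplicity p (p ^ j) = (j : ℕ∞) := fun j =>
    hp.out.emultiplicity_pow_self
  rw [h4, h4, ← Nat.cast_add, emultiplicity_eq_coe] at h3
  obtain ⟨⟨c, hc⟩, h5⟩ := h3
  have h6 : 1 ≤ (1 + p ^ m) ^ p ^ k := Nat.one_le_pow _ _ (by omega)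
  refine ⟨c, by omega, ?_⟩
  rintro ⟨d, rfl⟩
  apply h5
  rw [hc]
  exact ⟨d, by ring⟩

theorem sum_range_mul_eq {M : Type*} [AddCommMonoid M] (a b : ℕ) (f : ℕ → M) :
    ∑ i ∈ Finset.range (a * b), f i = ∑ i ∈ Finset.range a, ∑ j ∈ Finset.range b, f (b * i + j) := by
  induction a with
  | zero => simp
  | succ n ih =>
    rw [Nat.succ_mul, Finset.sum_range_add, ih, Finset.sum_range_succ, mul_comm n b]

theorem S_root (hp2 : p ≠ 2) {m : ℕ} (hm : m ≠ 0) (γ : Gal(PadicAlgCl p/ℚ_[p])) (k : ℕ) :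
    (∀ y : PadicAlgCl p, y ^ p ^ (m + k) = 1 → γ y = y ^ (1 + p ^ m)) →
    ∀ x : PadicAlgCl p, x ^ p ^ (m + k) = 1 → S γ k x = 0 ∨ S γ k x = (p : PadicAlgCl p) ^ k * x := by
  induction k with
  | zero =>
    intro _ x _
    right
    simp [S]
  | succ k ih =>
    intro h x hx
    have hsub : ∀ y : PadicAlgCl p, y ^ p ^ (m + k) = 1 → y ^ p ^ (m + (k + 1)) = 1 := by
      intro y hy
      rw [← add_assoc, pow_succ, pow_mul, hy, one_pow]
    obtain ⟨c, hc, hpc⟩ := one_add_pow_eq hp2 hm k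
    set Ω : PadicAlgCl p := x ^ (p ^ (m + k) * c) with hΩ
    set δ : Gal(PadicAlgCl p/ℚ_[p]) := γ ^ p ^ k with hδ
    have hδx : δ x = x * Ω := by
      rw [hδ, gal_pow_apply h hx, hc, pow_add, pow_one]
    have hΩp : Ω ^ p = 1 := by
      rw [hΩ, ← pow_mul, show p ^ (m + k) * c * p = p ^ (m + (k + 1)) * c by ring, pow_mul, hx,
        one_pow]
    have hγΩ : γ Ω = Ω := by
      have h1 : Ω ^ p ^ (m + (k + 1)) = 1 := by
        rw [← add_assoc, pow_succ', pow_mul, hΩp, one_pow]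
      rw [h Ω h1, pow_add, pow_one]
      obtain ⟨m', rfl⟩ := Nat.exists_eq_succ_of_ne_zero hm
      rw [pow_succ', pow_mul, hΩp, one_pow, mul_one]
    have hδΩ : δ Ω = Ω := by
      have h2 : ∀ i : ℕ, (γ ^ i) Ω = Ω := by
        intro i
        induction i with
        | zero => simp
        | succ n ih => rw [pow_succ, AlgEquiv.mul_apply, hγΩ, ih]
      exact h2 _
    have hδi : ∀ i : ℕ, (δ ^ i) x = x * Ω ^ i := by
      intro i
      induction i with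
      | zero => simp
      | succ n ih =>
        rw [pow_succ', AlgEquiv.mul_apply, ih, map_mul, map_pow, hδx, hδΩ]
        ring
    have hS : S γ (k + 1) x = ∑ j ∈ Finset.range (p ^ k), (γ ^ j) (x * ∑ i ∈ Finset.range p, Ω ^ i) := by
      unfold S
      rw [pow_succ', sum_range_mul_eq, Finset.sum_comm]
      refine Finset.sum_congr rfl fun j _ => ?_
      rw [Finset.mul_sum, map_sum]
      refine Finset.sum_congr rfl fun i _ => ?_
      rw [← hδi i, add_comm, pow_add, pow_mul, ← hδ, AlgEquiv.mul_apply]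
    rcases eq_or_ne Ω 1 with h1 | h1
    · -- `x` has order dividing `p ^ (m + k)`
      have hx' : x ^ p ^ (m + k) = 1 := by
        have e1 : (x ^ p ^ (m + k)) ^ p = 1 := by
          rw [← pow_mul, ← pow_succ, add_assoc]; exact hx
        have e2 : (x ^ p ^ (m + k)) ^ c = 1 := by
          rw [← pow_mul]; exact h1
        have e3 : Nat.gcd p c = 1 := (Nat.Prime.coprime_iff_not_dvd hp.out).2 hpc
        have e4 := pow_gcd_eq_one.2 ⟨e1, e2⟩
        rwa [e3, pow_one] at e4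
      have hS2 : S γ (k + 1) x = p * S γ k x := by
        rw [hS]
        simp only [h1, one_pow, Finset.sum_const, Finset.card_range, nsmul_eq_mul, mul_one]
        unfold S
        rw [Finset.mul_sum]
        refine Finset.sum_congr rfl fun j _ => ?_
        rw [map_mul, map_natCast, mul_comm]
      rcases ih (fun y hy => h y (hsub y hy)) x hx' with h2 | h2
      · left; rw [hS2, h2, mul_zero]
      · right; rw [hS2, h2]; ring
    · left
      have h2 : ∑ i ∈ Finset.range p, Ω ^ i = 0 := by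
        have h3 := geom_sum_mul Ω p
        rw [hΩp, sub_self] at h3
        exact (mul_eq_zero.1 h3).resolve_right (sub_ne_zero.2 h1)
      rw [hS, h2, mul_zero]
      simp

theorem norm_p_alg : ‖(p : PadicAlgCl p)‖ = (p : ℝ)⁻¹ := by
  rw [norm_natCast_alg, Padic.norm_p]

theorem norm_S_le_one (hp2 : p ≠ 2) {m : ℕ} (hm : m ≠ 0) (γ : Gal(PadicAlgCl p/ℚ_[p])) (k : ℕ)
    (h : ∀ y : PadicAlgCl p, y ^ p ^ (m + k) = 1 → γ y = y ^ (1 + p ^ m))
    {z : PadicAlgCl p} (hz : IsPrimitiveRoot z (p ^ (m + k)))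
    {a : PadicAlgCl p} (ha : a ∈ IntermediateField.adjoin ℚ_[p] {z}) (h1 : ‖a‖ ≤ 1) :
    ‖S γ k a‖ ≤ ((p : ℝ)⁻¹) ^ k := by
  obtain ⟨n, hn⟩ : ∃ n, m + k = n + 1 := ⟨m + k - 1, by omega⟩
  rw [hn] at hz
  obtain ⟨f, hf⟩ := integral_rep hz ha h1
  rw [hf, S_sum]
  refine IsUltrametricDist.norm_sum_le_of_forall_le_of_nonneg (by positivity) fun i _ => ?_
  rw [S_smul, norm_mul]
  have h2 : ‖algebraMap ℚ_[p] (PadicAlgCl p) (f.coeff i : ℚ_[p])‖ ≤ 1 := by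
    have h3 : ‖algebraMap ℚ_[p] (PadicAlgCl p) (f.coeff i : ℚ_[p])‖ = ‖(f.coeff i : ℚ_[p])‖ :=
      PadicAlgCl.norm_extends p _
    rw [h3]
    exact (f.coeff i).norm_le_one
  have hzi : (z ^ i) ^ p ^ (m + k) = 1 := by
    rw [← pow_mul, mul_comm, pow_mul, hn, hz.pow_eq_one, one_pow]
  have h4 : ‖S γ k (z ^ i)‖ ≤ ((p : ℝ)⁻¹) ^ k := by
    rcases S_root hp2 hm γ k h (z ^ i) hzi with h5 | h5
    · rw [h5, norm_zero]; positivity
    · rw [h5, norm_mul, norm_pow, norm_p_alg]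
      have h6 : ‖z ^ i‖ = 1 := by
        have := norm_rootOfUnity (pow_ne_zero _ hp.out.ne_zero) hzi
        exact this
      rw [h6, mul_one]
  calc ‖algebraMap ℚ_[p] (PadicAlgCl p) (f.coeff i : ℚ_[p])‖ * ‖S γ k (z ^ i)‖
      ≤ 1 * ((p : ℝ)⁻¹) ^ k := mul_le_mul h2 h4 (norm_nonneg _) zero_le_one
    _ = _ := one_mul _

/-- Tate's bound for the normalised trace. -/
theorem norm_S_le (hp2 : p ≠ 2) {m : ℕ} (hm : m ≠ 0) (γ : Gal(PadicAlgCl p/ℚ_[p])) (k : ℕ)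
    (h : ∀ y : PadicAlgCl p, y ^ p ^ (m + k) = 1 → γ y = y ^ (1 + p ^ m))
    {z : PadicAlgCl p} (hz : IsPrimitiveRoot z (p ^ (m + k)))
    {a : PadicAlgCl p} (ha : a ∈ IntermediateField.adjoin ℚ_[p] {z}) :
    ‖S γ k a‖ ≤ ((p : ℝ)⁻¹) ^ k * (p * ‖a‖) := by
  rcases eq_or_ne a 0 with h0 | h0
  · subst h0
    have : S γ k (0 : PadicAlgCl p) = 0 := by simp [S]
    rw [this]; simp
  have hp0 : (0 : ℝ) < p := by exact_mod_cast hp.out.pos
  have hp1 : (1 : ℝ) < p := one_lt_p p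
  have ha0 : 0 < ‖a‖ := norm_pos_iff.2 h0
  obtain ⟨s, hs1, hs2⟩ := exists_mem_Ioc_zpow ha0 hp1
  -- `p ^ s < ‖a‖ ≤ p ^ (s + 1)`
  have hb : ‖algebraMap ℚ_[p] (PadicAlgCl p) ((p : ℚ_[p]) ^ (s + 1)) * a‖ ≤ 1 := by
    rw [norm_mul]
    have h3 : ‖algebraMap ℚ_[p] (PadicAlgCl p) ((p : ℚ_[p]) ^ (s + 1))‖ = ‖(p : ℚ_[p]) ^ (s + 1)‖ :=
      PadicAlgCl.norm_extends p _
    rw [h3, norm_zpow, Padic.norm_p, inv_zpow]
    have h4 : (0 : ℝ) < (p : ℝ) ^ (s + 1) := zpow_pos hp0 _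
    rw [inv_mul_le_iff₀ h4, mul_one]
    exact hs2
  have hmem : algebraMap ℚ_[p] (PadicAlgCl p) ((p : ℚ_[p]) ^ (s + 1)) * a ∈
      IntermediateField.adjoin ℚ_[p] {z} :=
    mul_mem (IntermediateField.algebraMap_mem _ _) ha
  have h5 := norm_S_le_one hp2 hm γ k h hz hmem hb
  rw [S_smul, norm_mul] at h5
  have h3 : ‖algebraMap ℚ_[p] (PadicAlgCl p) ((p : ℚ_[p]) ^ (s + 1))‖ = ‖(p : ℚ_[p]) ^ (s + 1)‖ :=
    PadicAlgCl.norm_extends p _
  rw [h3, norm_zpow, Padic.norm_p, inv_zpow, inv_mul_le_iff₀ (zpow_pos hp0 _)] at h5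
  calc ‖S γ k a‖ ≤ (p : ℝ) ^ (s + 1) * ((p : ℝ)⁻¹) ^ k := h5
    _ = ((p : ℝ)⁻¹) ^ k * (p * (p : ℝ) ^ s) := by rw [zpow_add_one₀ hp0.ne']; ring
    _ ≤ ((p : ℝ)⁻¹) ^ k * (p * ‖a‖) := by
        apply mul_le_mul_of_nonneg_left _ (by positivity)
        exact mul_le_mul_of_nonneg_left hs1.le hp0.le

end Q276.HT
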