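import Mathlib
import Pool.Agent.Q276.HT.Trace

/-!
`ℂ_p` has no nonzero eigenvector for a character of the cyclotomic Galois group which is
nontrivial on open subgroups (Tate).
-/

set_option linter.unusedSectionVars false

namespace Q276.HT

open Polynomial Pool.Agent.W292.FM

variable {p : ℕ} [hp : Fact p.Prime]

/-- The cyclotomic field generated by `z n`. -/
noncomputable abbrev KK (z : ℕ → PadicAlgCl p) (n : ℕ) : IntermediateField ℚ_[p] (PadicAlgCl p) :=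
  IntermediateField.adjoin ℚ_[p] {z n}

/-- The union of the cyclotomic tower. -/
noncomputable abbrev Kinf (z : ℕ → PadicAlgCl p) : IntermediateField ℚ_[p] (PadicAlgCl p) :=
  ⨆ n, KK z n

theorem KK_mono {z : ℕ → PadicAlgCl p} (hzs : ∀ n, z (n + 1) ^ p = z n) : Monotone (KK z) := by
  refine monotone_nat_of_le_succ fun n => ?_
  rw [IntermediateField.adjoin_simple_le_iff, ← hzs n]
  exact pow_mem (IntermediateField.mem_adjoin_simple_self _ _) _

theorem mem_Kinf {z : ℕ → PadicAlgCl p} (hzs : ∀ n, z (n + 1) ^ p = z n) {a : PadicAlgCl p}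
    (ha : a ∈ Kinf z) : ∃ n, a ∈ KK z n := by
  have h : (a : PadicAlgCl p) ∈ ((Kinf z : IntermediateField ℚ_[p] (PadicAlgCl p)) :
    Set (PadicAlgCl p)) := ha
  rw [Kinf, IntermediateField.coe_iSup_of_directed (KK_mono hzs).directed_le] at h
  simpa using h

theorem fix_Kinf {z : ℕ → PadicAlgCl p} {g : Gal(PadicAlgCl p/ℚ_[p])} (h : ∀ x ∈ Kinf z, g x = x) (n : ℕ) : g (z n) = z n :=
  h _ ((le_iSup (KK z) n) (IntermediateField.mem_adjoin_simple_self _ _))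

theorem approx {z : ℕ → PadicAlgCl p} (hzs : ∀ n, z (n + 1) ^ p = z n) {y : ℂ_[p]}
    (hy : ∀ g : Gal(PadicAlgCl p/ℚ_[p]), (∀ n, g (z n) = z n) → cpMap p g y = y) {δ : ℝ}
    (hδ : 0 < δ) : ∃ n, ∃ a ∈ KK z n, ‖y - (a : ℂ_[p])‖ ≤ δ := by
  have hp1 : (1 : ℝ) < p := one_lt_p p
  have hp0 : (0 : ℝ) < p := by linarith
  set ε : ℝ := δ / (p : ℝ) ^ 2 with hε
  have hε0 : 0 < ε := by positivity
  have hεδ : ε ≤ δ := div_le_self hδ.le (one_le_pow₀ hp1.le)
  obtain ⟨α, hα⟩ := Metric.denseRange_iff.1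
    (UniformSpace.Completion.denseRange_coe (α := PadicAlgCl p)) y ε hε0
  rw [dist_eq_norm] at hα
  obtain ⟨a, ha, ha2⟩ := ax p (Kinf z) α ε hε0.le (fun σ hσ => by
    have h1 : cpMap p σ y = y := hy σ (fun n => fix_Kinf hσ n)
    have h2 : ((σ α - α : PadicAlgCl p) : ℂ_[p]) = cpMap p σ ((α : ℂ_[p]) - y) + (y - (α : ℂ_[p])) := by
      rw [map_sub, cpMap_coe, h1, UniformSpace.Completion.coe_sub]
      ring
    rw [← PadicComplex.norm_extends, h2]
    refine (IsUltrametricDist.norm_add_le_max _ _).trans (max_le ?_ hα.le)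
    rw [norm_cpMap, norm_sub_rev]
    exact hα.le)
  obtain ⟨n, hn⟩ := mem_Kinf hzs ha
  refine ⟨n, a, hn, ?_⟩
  have h3 : y - (a : ℂ_[p]) = (y - (α : ℂ_[p])) + ((α - a : PadicAlgCl p) : ℂ_[p]) := by
    rw [UniformSpace.Completion.coe_sub]; ring
  rw [h3]
  refine (IsUltrametricDist.norm_add_le_max _ _).trans (max_le (hα.le.trans hεδ) ?_)
  rw [PadicComplex.norm_extends]
  refine ha2.trans ?_
  rw [hε]
  field_simp
  exact le_rfl

/-- A continuous character of the cyclotomic Galois group which is nontrivial on all small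
subgroups has no nonzero eigenvector in `ℂ_p`. -/
theorem no_eigen (hp2 : p ≠ 2) {z : ℕ → PadicAlgCl p} (hz : ∀ n, IsPrimitiveRoot (z n) (p ^ n))
    (hzs : ∀ n, z (n + 1) ^ p = z n) (η : Gal(PadicAlgCl p/ℚ_[p]) → ℤ_[p])
    (h1 : ∀ g : Gal(PadicAlgCl p/ℚ_[p]), (∀ n, g (z n) = z n) → η g = 1)
    (h2 : ∀ m : ℕ, m ≠ 0 → ∃ c : ℝ, 0 < c ∧ ∀ g : Gal(PadicAlgCl p/ℚ_[p]),
      g (z (m + 1)) = z (m + 1) ^ (1 + p ^ m) → c ≤ ‖η g - 1‖)
    (y : ℂ_[p]) (hy : ∀ g : Gal(PadicAlgCl p/ℚ_[p]),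
      cpMap p g y = algebraMap ℚ_[p] ℂ_[p] (η g : ℚ_[p]) * y) : y = 0 := by
  by_contra hy0
  have hp1 : (1 : ℝ) < p := one_lt_p p
  have hp0 : (0 : ℝ) < p := by linarith
  have hyn : 0 < ‖y‖ := norm_pos_iff.2 hy0
  have hfix : ∀ g : Gal(PadicAlgCl p/ℚ_[p]), (∀ n, g (z n) = z n) → cpMap p g y = y := by
    intro g hg
    rw [hy g, h1 g hg]; simp
  -- first approximation
  set δ : ℝ := ‖y‖ / (p : ℝ) ^ 2 with hδ
  have hδ0 : 0 < δ := by positivity
  have hpδ : p * δ < ‖y‖ := by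
    have h3 : ‖y‖ = p * (p * δ) := by rw [hδ]; field_simp
    have h4 : 0 < p * δ := by positivity
    nlinarith
  have hδy : δ < ‖y‖ := by nlinarith
  obtain ⟨m₀, a, ha₀, hya⟩ := approx hzs hfix hδ0
  set m := m₀ + 1 with hm
  have hm0 : m ≠ 0 := by omega
  have ha : a ∈ KK z m := KK_mono hzs (by omega) ha₀
  obtain ⟨c, hc0, hc⟩ := h2 m hm0
  -- second approximation
  set δ' : ℝ := min δ (c * δ) with hδ'
  have hδ'0 : 0 < δ' := lt_min hδ0 (by positivity)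
  obtain ⟨n₀, a', ha'₀, hya'⟩ := approx hzs hfix hδ'0
  set k := n₀ + 1 with hk
  have ha' : a' ∈ KK z (m + k) := KK_mono hzs (by omega) ha'₀
  have haM : a ∈ KK z (m + k) := KK_mono hzs (by omega) ha
  -- the automorphism
  have hcop : Nat.Coprime (1 + p ^ m) (p ^ (m + k)) := by
    apply Nat.Coprime.pow_right
    rw [Nat.coprime_comm, Nat.Prime.coprime_iff_not_dvd hp.out]
    intro h
    have h3 : p ∣ 1 := (Nat.dvd_add_left (dvd_pow_self p hm0)).1 h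
    exact hp.out.one_lt.ne' (Nat.dvd_one.1 h3)
  have hzM := hz (m + k)
  have hzM' : IsPrimitiveRoot (z (m + k) ^ (1 + p ^ m)) (p ^ (m + k)) := hzM.pow_of_coprime _ hcop
  obtain ⟨n, hn⟩ : ∃ n, m + k = n + 1 := ⟨m + k - 1, by omega⟩
  obtain ⟨γ, hγ⟩ : ∃ γ : Gal(PadicAlgCl p/ℚ_[p]), γ (z (m + k)) = z (m + k) ^ (1 + p ^ m) := by
    apply exists_gal (n := n)
    · rw [← hn]; exact hzM
    · rw [← hn]; exact hzM'
  have hroot : ∀ x : PadicAlgCl p, x ^ p ^ (m + k) = 1 → γ x = x ^ (1 + p ^ m) := by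
    intro x hx
    have : NeZero (p ^ (m + k)) := ⟨pow_ne_zero _ hp.out.ne_zero⟩
    obtain ⟨i, _, rfl⟩ := hzM.eq_pow_of_pow_eq_one hx
    rw [map_pow, hγ, ← pow_mul, ← pow_mul, mul_comm]
  have hzpow : ∀ i j : ℕ, z (j + i) ^ p ^ i = z j := by
    intro i
    induction i with
    | zero => intro j; simp
    | succ i ih => intro j; rw [pow_succ', pow_mul, ← add_assoc, hzs, ih]
  have hzle : ∀ j, j ≤ m + k → z j ^ p ^ (m + k) = 1 := by
    intro j hj
    obtain ⟨i, hi⟩ := Nat.exists_eq_add_of_le hj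
    rw [hi, pow_add, pow_mul, (hz j).pow_eq_one, one_pow]
  have hγm : γ (z m) = z m := by
    rw [hroot _ (hzle m (by omega)), pow_add, pow_one, (hz m).pow_eq_one, mul_one]
  have hγm1 : γ (z (m + 1)) = z (m + 1) ^ (1 + p ^ m) := hroot _ (hzle _ (by omega))
  have hcγ := hc γ hγm1
  -- `γ` fixes `a`
  have hfixadj : ∀ (σ : Gal(PadicAlgCl p/ℚ_[p])) (j : ℕ), σ (z j) = z j → ∀ x ∈ KK z j, σ x = x := by
    intro σ j hσ x hx
    have hle : KK z j ≤ IntermediateField.fixedField (Subgroup.zpowers σ) := by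
      rw [IntermediateField.adjoin_simple_le_iff]
      intro τ
      obtain ⟨τ, hτ⟩ := τ
      obtain ⟨i, rfl⟩ := hτ
      have hst : σ ∈ MulAction.stabilizer (Gal(PadicAlgCl p/ℚ_[p])) (z j) := hσ
      exact zpow_mem hst i
    have h3 := hle hx
    exact h3 ⟨σ, Subgroup.mem_zpowers σ⟩
  have hγa : γ a = a := hfixadj γ m hγm a ha
  -- `γ ^ p ^ k` fixes `a'`
  have hγk : (γ ^ p ^ k) (z (m + k)) = z (m + k) := by
    rw [gal_pow_apply hroot (hzle _ le_rfl)]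
    obtain ⟨c', hc', _⟩ := one_add_pow_eq hp2 hm0 k
    rw [hc', pow_add, pow_one, pow_mul, hzM.pow_eq_one, one_pow, mul_one]
  have hγa' : (γ ^ p ^ k) a' = a' := hfixadj _ _ hγk a' ha'
  -- the error term
  set e : PadicAlgCl p := γ a' - algebraMap ℚ_[p] (PadicAlgCl p) (η γ : ℚ_[p]) * a' with he
  have hηn : ‖algebraMap ℚ_[p] ℂ_[p] (η γ : ℚ_[p])‖ ≤ 1 := by
    have h3 : ‖algebraMap ℚ_[p] ℂ_[p] (η γ : ℚ_[p])‖ = ‖(η γ : ℚ_[p])‖ :=
      PadicComplex.norm_extends' p _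
    rw [h3]; exact (η γ).norm_le_one
  have hen : ‖e‖ ≤ δ' := by
    rw [← PadicComplex.norm_extends]
    have h3 : (e : ℂ_[p]) = cpMap p γ ((a' : ℂ_[p]) - y)
        + algebraMap ℚ_[p] ℂ_[p] (η γ : ℚ_[p]) * (y - (a' : ℂ_[p])) := by
      rw [map_sub, cpMap_coe, hy γ, he, UniformSpace.Completion.coe_sub,
        UniformSpace.Completion.coe_mul]
      have h4 : ((algebraMap ℚ_[p] (PadicAlgCl p) (η γ : ℚ_[p]) : PadicAlgCl p) : ℂ_[p])
        = algebraMap ℚ_[p] ℂ_[p] (η γ : ℚ_[p]) := rfl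
      rw [h4]
      ring
    rw [h3]
    refine (IsUltrametricDist.norm_add_le_max _ _).trans (max_le ?_ ?_)
    · rw [norm_cpMap, norm_sub_rev]; exact hya'
    · rw [norm_mul]
      calc _ ≤ 1 * δ' := mul_le_mul hηn hya' (norm_nonneg _) zero_le_one
        _ = δ' := one_mul _
  have hγmem : ∀ x ∈ KK z (m + k), γ x ∈ KK z (m + k) := by
    intro x hx
    have hle : KK z (m + k) ≤ (KK z (m + k)).comap (γ : PadicAlgCl p →ₐ[ℚ_[p]] PadicAlgCl p) := by
      rw [IntermediateField.adjoin_simple_le_iff]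
      change γ (z (m + k)) ∈ KK z (m + k)
      rw [hγ]
      exact pow_mem (IntermediateField.mem_adjoin_simple_self _ _) _
    exact hle hx
  have hemem : e ∈ KK z (m + k) :=
    sub_mem (hγmem _ ha') (mul_mem (IntermediateField.algebraMap_mem _ _) ha')
  have hSe : S γ k e = (1 - algebraMap ℚ_[p] (PadicAlgCl p) (η γ : ℚ_[p])) * S γ k a' := by
    rw [he, S_sub, S_smul, S_gal, hγa', sub_self, add_zero]
    ring
  have hbS : ∀ x ∈ KK z (m + k), ‖S γ k x‖ ≤ ((p : ℝ)⁻¹) ^ k * (p * ‖x‖) := fun x hx =>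
    norm_S_le hp2 hm0 γ k hroot hzM hx
  have hSa' : ‖S γ k a'‖ ≤ ((p : ℝ)⁻¹) ^ k * (p * δ) := by
    have h3 := hbS e hemem
    rw [hSe, norm_mul] at h3
    have h4 : ‖(1 - algebraMap ℚ_[p] (PadicAlgCl p) (η γ : ℚ_[p]))‖ = ‖η γ - 1‖ := by
      have h5 : (1 - algebraMap ℚ_[p] (PadicAlgCl p) (η γ : ℚ_[p]))
        = algebraMap ℚ_[p] (PadicAlgCl p) (1 - (η γ : ℚ_[p])) := by rw [map_sub, map_one]
      rw [h5]
      have h6 : ‖algebraMap ℚ_[p] (PadicAlgCl p) (1 - (η γ : ℚ_[p]))‖ = ‖1 - (η γ : ℚ_[p])‖ :=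
        PadicAlgCl.norm_extends p _
      rw [h6, norm_sub_rev, PadicInt.norm_def]
      push_cast
      rfl
    rw [h4] at h3
    have h5 : c * ‖S γ k a'‖ ≤ ((p : ℝ)⁻¹) ^ k * (p * (c * δ)) := by
      calc c * ‖S γ k a'‖ ≤ ‖η γ - 1‖ * ‖S γ k a'‖ := mul_le_mul_of_nonneg_right hcγ (norm_nonneg _)
        _ ≤ ((p : ℝ)⁻¹) ^ k * (p * ‖e‖) := h3
        _ ≤ ((p : ℝ)⁻¹) ^ k * (p * (c * δ)) := by
          apply mul_le_mul_of_nonneg_left _ (by positivity)
          exact mul_le_mul_of_nonneg_left (hen.trans (min_le_right _ _)) hp0.le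
    have h6 : c * ‖S γ k a'‖ ≤ c * (((p : ℝ)⁻¹) ^ k * (p * δ)) := by
      calc _ ≤ _ := h5
        _ = _ := by ring
    exact le_of_mul_le_mul_left h6 hc0
  have hSaa' : ‖S γ k (a - a')‖ ≤ ((p : ℝ)⁻¹) ^ k * (p * δ) := by
    refine (hbS _ (sub_mem haM ha')).trans ?_
    apply mul_le_mul_of_nonneg_left _ (by positivity)
    apply mul_le_mul_of_nonneg_left _ hp0.le
    rw [← PadicComplex.norm_extends, UniformSpace.Completion.coe_sub]
    have h3 : (a : ℂ_[p]) - (a' : ℂ_[p]) = (y - (a' : ℂ_[p])) + -(y - (a : ℂ_[p])) := by ring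
    rw [h3]
    refine (IsUltrametricDist.norm_add_le_max _ _).trans
      (max_le (hya'.trans (min_le_left _ _)) ?_)
    rw [norm_neg]; exact hya
  have hSa : ‖S γ k a‖ ≤ ((p : ℝ)⁻¹) ^ k * (p * δ) := by
    have h3 : S γ k a = S γ k (a - a') + S γ k a' := by rw [S_sub]; ring
    rw [h3]
    exact (IsUltrametricDist.norm_add_le_max _ _).trans (max_le hSaa' hSa')
  have hna : ‖a‖ = ‖y‖ := by
    rw [← PadicComplex.norm_extends]
    have h3 : (a : ℂ_[p]) = y + -(y - (a : ℂ_[p])) := by ring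
    rw [h3, IsUltrametricDist.norm_add_eq_max_of_norm_ne_norm, norm_neg, max_eq_left]
    · exact hya.trans hδy.le
    · intro h4
      rw [norm_neg] at h4
      rw [← h4] at hya
      linarith
  rw [S_of_fixed γ k a hγa, norm_mul, norm_pow, norm_p_alg, hna] at hSa
  have h7 : 0 < ((p : ℝ)⁻¹) ^ k := by positivity
  have h8 := le_of_mul_le_mul_left hSa h7
  linarith

end Q276.HT
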