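import Mathlib
import Pool.Agent.W292.FM.Tilt

/-!
The kernel of Fontaine's map `θ` over the ring of integers of `ℂ_[p]` is principal, and the
extension of `θ` to `A_inf[1/p]` with values in `ℂ_[p]`.
-/

set_option linter.unusedSectionVars false

namespace Q276.HT

open Ideal WittVector Pool.Agent.W292.FM

variable {p : ℕ} [hp : Fact p.Prime]

/-- The ring `A_inf[1/p]`. -/
abbrev AL (p : ℕ) [hp : Fact p.Prime] : Type :=
  Localization.Away (p : WittVector p (PreTilt 𝓞_ℂ_[p] p))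

/-- The generator `ξ = [p♭] - p` of the kernel of `θ`. -/
noncomputable def xi (p : ℕ) [hp : Fact p.Prime] : AI p := teichmuller p (pflat p) - p

theorem theta_xi : fontaineTheta 𝓞_ℂ_[p] p (xi p) = 0 := by
  rw [xi, map_sub, fontaineTheta_teichmuller, untilt_pflat, map_natCast, sub_self]

theorem int_p_ne_zero : (p : 𝓞_ℂ_[p]) ≠ 0 := by
  intro h
  have h2 := congrArg (fun x : 𝓞_ℂ_[p] => (x : ℂ_[p])) h
  simp only [ZeroMemClass.coe_zero] at h2
  apply p_ne_zero p
  rw [← h2]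
  simp

theorem coeff_zero_teich (u : TT p) : (teichmuller p u).coeff 0 = u := teichmuller_coeff_zero p u

theorem ker_step (x : AI p) (hx : fontaineTheta 𝓞_ℂ_[p] p x = 0) :
    ∃ y x' : AI p, x = xi p * y + p * x' ∧ fontaineTheta 𝓞_ℂ_[p] p x' = 0 := by
  have h1 : PreTilt.coeff 0 (x.coeff 0) = 0 := by
    rw [← mk_fontaineTheta, hx, map_zero]
  obtain ⟨u, hu⟩ := pflat_dvd h1
  have h2 : (x - teichmuller p (pflat p) * teichmuller p u) ∈ Ideal.span {(p : AI p)} := by
    rw [mem_span_p_iff_coeff_zero_eq_zero, ← map_mul, ← hu]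
    have h3 : WittVector.constantCoeff (x - teichmuller p (x.coeff 0)) = 0 := by
      rw [map_sub]
      change x.coeff 0 - (teichmuller p (x.coeff 0)).coeff 0 = 0
      rw [coeff_zero_teich, sub_self]
    exact h3
  rw [Ideal.mem_span_singleton] at h2
  obtain ⟨w, hw⟩ := h2
  refine ⟨teichmuller p u, teichmuller p u + w, ?_, ?_⟩
  · rw [xi]
    linear_combination hw
  · have h4 : x = xi p * teichmuller p u + p * (teichmuller p u + w) := by
      rw [xi]; linear_combination hw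
    have h5 := congrArg (fontaineTheta 𝓞_ℂ_[p] p) h4
    rw [hx, map_add, map_mul, theta_xi, zero_mul, zero_add, map_mul, map_natCast] at h5
    exact (mul_eq_zero.1 h5.symm).resolve_left int_p_ne_zero

/-- The kernel of `θ` is generated by `ξ`. -/
theorem xi_dvd (x : AI p) (hx : fontaineTheta 𝓞_ℂ_[p] p x = 0) : xi p ∣ x := by
  choose! y x' h1 h2 using ker_step (p := p)
  -- iterates
  let X : ℕ → AI p := fun n => Nat.rec x (fun _ v => x' v) n
  have hX0 : X 0 = x := rfl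
  have hXs : ∀ n, X (n + 1) = x' (X n) := fun n => rfl
  have hXk : ∀ n, fontaineTheta 𝓞_ℂ_[p] p (X n) = 0 := by
    intro n
    induction n with
    | zero => exact hx
    | succ n ih => rw [hXs]; exact h2 _ ih
  have hXe : ∀ n, X n = xi p * y (X n) + p * X (n + 1) := by
    intro n; rw [hXs]; exact h1 _ (hXk n)
  let s : ℕ → AI p := fun n => ∑ i ∈ Finset.range n, (p : AI p) ^ i * y (X i)
  have hs : ∀ n, x = xi p * s n + (p : AI p) ^ n * X n := by
    intro n
    induction n with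
    | zero => simp [s, hX0]
    | succ n ih =>
      have e : s (n + 1) = s n + (p : AI p) ^ n * y (X n) := Finset.sum_range_succ _ _
      rw [e]
      conv_lhs => rw [ih, hXe n]
      ring
  have hcauchy : ∀ {m n : ℕ}, m ≤ n → s m ≡ s n [SMOD (Ideal.span {(p : AI p)} ^ m • ⊤ :
      Submodule (AI p) (AI p))] := by
    intro m n hmn
    rw [SModEq.sub_mem, smul_eq_mul, Ideal.mul_top]
    have h3 : s m - s n = -∑ i ∈ Finset.Ico m n, (p : AI p) ^ i * y (X i) := by
      have := Finset.sum_range_add_sum_Ico (fun i => (p : AI p) ^ i * y (X i)) hmn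
      simp only [s]
      rw [← this]; ring
    rw [h3]
    refine neg_mem (sum_mem fun i hi => ?_)
    rw [Ideal.span_singleton_pow]
    refine Ideal.mul_mem_right _ _ (Ideal.mem_span_singleton.2 ?_)
    exact pow_dvd_pow _ (Finset.mem_Ico.1 hi).1
  obtain ⟨Y, hY⟩ := IsPrecomplete.prec (I := Ideal.span {(p : AI p)}) (M := AI p) inferInstance hcauchy
  refine ⟨Y, ?_⟩
  rw [← sub_eq_zero]
  refine IsHausdorff.haus (I := Ideal.span {(p : AI p)}) inferInstance _ fun n => ?_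
  rw [SModEq.sub_mem, smul_eq_mul, Ideal.mul_top, sub_zero]
  have h3 := hY n
  rw [SModEq.sub_mem, smul_eq_mul, Ideal.mul_top] at h3
  have h4 : x - xi p * Y = xi p * (s n - Y) + (p : AI p) ^ n * X n := by
    conv_lhs => rw [hs n]
    ring
  rw [h4]
  refine add_mem (Ideal.mul_mem_left _ _ h3) (Ideal.mul_mem_right _ _ ?_)
  exact Ideal.pow_mem_pow (Ideal.mem_span_singleton_self _) n

/-- The map `𝓞[1/p] → ℂ_p`. -/
noncomputable def liftC (p : ℕ) [hp : Fact p.Prime] : Localization.Away (p : 𝓞_ℂ_[p]) →+* ℂ_[p] :=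
  IsLocalization.Away.lift (p : 𝓞_ℂ_[p]) (g := algebraMap 𝓞_ℂ_[p] ℂ_[p]) (by
    rw [isUnit_iff_ne_zero, map_natCast]
    exact p_ne_zero p)

theorem liftC_algebraMap (x : 𝓞_ℂ_[p]) : liftC p (algebraMap _ _ x) = (x : ℂ_[p]) :=
  IsLocalization.Away.lift_eq _ _ _

theorem injective_liftC : Function.Injective (liftC p) := by
  rw [injective_iff_map_eq_zero]
  intro x hx
  obtain ⟨⟨a, ⟨_, n, rfl⟩⟩, ha⟩ := IsLocalization.surj (Submonoid.powers (p : 𝓞_ℂ_[p])) x
  simp only at ha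
  have h1 := congrArg (liftC p) ha
  rw [map_mul, hx, zero_mul, liftC_algebraMap] at h1
  have h2 : a = 0 := Subtype.ext h1.symm
  rw [h2, map_zero] at ha
  have h3 : IsUnit (algebraMap 𝓞_ℂ_[p] (Localization.Away (p : 𝓞_ℂ_[p])) ((p : 𝓞_ℂ_[p]) ^ n)) := by
    rw [map_pow]
    exact (IsLocalization.Away.algebraMap_isUnit _).pow n
  exact (IsUnit.mul_left_eq_zero h3).1 ha

/-- Fontaine's map `A_inf[1/p] → ℂ_p`. -/
noncomputable def Th (p : ℕ) [hp : Fact p.Prime] : AL p →+* ℂ_[p] :=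
  (liftC p).comp (fontaineThetaInvertP 𝓞_ℂ_[p] p)

theorem Th_algebraMap (x : AI p) : Th p (algebraMap _ _ x) = (fontaineTheta 𝓞_ℂ_[p] p x : ℂ_[p]) := by
  rw [Th, RingHom.comp_apply, thetaInvertP_algebraMap, liftC_algebraMap]

theorem Th_eq_zero_iff (x : AL p) : Th p x = 0 ↔ x ∈ kerT 𝓞_ℂ_[p] p := by
  rw [RingHom.mem_ker, Th, RingHom.comp_apply, map_eq_zero_iff _ injective_liftC]

/-- The generator of `ker θ` in `A_inf[1/p]`. -/
noncomputable def xl (p : ℕ) [hp : Fact p.Prime] : AL p := algebraMap (AI p) _ (xi p)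

theorem isDomain_AL : IsDomain (AL p) := by
  have h0 : (p : AI p) ≠ 0 := by
    intro h
    have h1 := congrArg (fontaineTheta 𝓞_ℂ_[p] p) h
    rw [map_natCast, map_zero] at h1
    exact int_p_ne_zero h1
  exact IsLocalization.isDomain_localization (powers_le_nonZeroDivisors_of_noZeroDivisors h0)

theorem injective_AL : Function.Injective (algebraMap (AI p) (AL p)) := by
  have h0 : (p : AI p) ≠ 0 := by
    intro h
    have h1 := congrArg (fontaineTheta 𝓞_ℂ_[p] p) h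
    rw [map_natCast, map_zero] at h1
    exact int_p_ne_zero h1
  exact IsLocalization.injective _ (powers_le_nonZeroDivisors_of_noZeroDivisors h0)

theorem kerT_eq : kerT 𝓞_ℂ_[p] p = Ideal.span {xl p} := by
  apply le_antisymm
  · intro x hx
    rw [← Th_eq_zero_iff] at hx
    obtain ⟨⟨a, ⟨_, n, rfl⟩⟩, ha⟩ := IsLocalization.surj (Submonoid.powers (p : AI p)) x
    simp only at ha
    have h1 := congrArg (Th p) ha
    rw [map_mul, hx, zero_mul, Th_algebraMap] at h1
    have h2 : fontaineTheta 𝓞_ℂ_[p] p a = 0 := Subtype.ext h1.symm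
    obtain ⟨b, hb⟩ := xi_dvd a h2
    have h3 : IsUnit (algebraMap (AI p) (AL p) ((p : AI p) ^ n)) := by
      rw [map_pow]
      exact (IsLocalization.Away.algebraMap_isUnit _).pow n
    rw [Ideal.mem_span_singleton]
    have h4 : xl p ∣ x * algebraMap (AI p) (AL p) ((p : AI p) ^ n) := by
      rw [ha, hb, map_mul]
      exact dvd_mul_right _ _
    exact (IsUnit.dvd_mul_right h3).1 h4
  · rw [Ideal.span_singleton_le_iff_mem, ← Th_eq_zero_iff, xl, Th_algebraMap, theta_xi]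
    rfl

theorem xl_ne_zero : xl p ≠ 0 := by
  intro h
  have h1 : xi p = 0 := injective_AL (by rw [map_zero]; exact h)
  have h2 := congrArg WittVector.constantCoeff h1
  rw [xi, map_sub, map_zero, map_natCast] at h2
  have h3 : WittVector.constantCoeff (teichmuller p (pflat p)) = pflat p := coeff_zero_teich _
  rw [h3, CharP.cast_eq_zero, sub_zero] at h2
  have h4 := untilt_pflat (p := p)
  rw [h2] at h4
  have h5 : (0 : TT p).untilt = 0 := by
    have := fontaineTheta_teichmuller (R := 𝓞_ℂ_[p]) (p := p) (0 : TT p)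
    rw [← this, teichmuller_zero, map_zero]
  rw [h5] at h4
  exact int_p_ne_zero h4.symm

/-- Equivariance of `Th`. -/
theorem Th_locMap (g : Gal(PadicAlgCl p/ℚ_[p])) (x : AL p) :
    Th p (locMap p (intMap p g) x) = cpMap p g (Th p x) := by
  rw [Th, RingHom.comp_apply, thetaInvertP_locMap, RingHom.comp_apply]
  have key : (liftC p).comp (locRMap p (intMap p g)) =
      ((cpMap p g : ℂ_[p] →+* ℂ_[p])).comp (liftC p) := by
    refine IsLocalization.ringHom_ext (Submonoid.powers (p : 𝓞_ℂ_[p])) ?_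
    ext x
    simp only [RingHom.comp_apply]
    rw [locRMap_algebraMap, liftC_algebraMap, liftC_algebraMap]
    rfl
  exact congrArg (fun f : _ →+* ℂ_[p] => f _) key

theorem theta_zpMap (c : ℤ_[p]) :
    (fontaineTheta 𝓞_ℂ_[p] p (zpMap 𝓞_ℂ_[p] p c) : ℂ_[p]) = algebraMap ℚ_[p] ℂ_[p] (c : ℚ_[p]) := by
  rw [← sub_eq_zero, ← norm_le_zero_iff]
  refine ge_of_tendsto' (tendsto_norm_p_pow p) fun n => ?_
  obtain ⟨d, hd⟩ : ∃ d, c = (c.appr n : ℤ_[p]) + p ^ n * d := by
    have h := PadicInt.appr_spec n c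
    rw [Ideal.mem_span_singleton] at h
    obtain ⟨d, hd⟩ := h
    exact ⟨d, by rw [← hd]; ring⟩
  have h1 : (fontaineTheta 𝓞_ℂ_[p] p (zpMap 𝓞_ℂ_[p] p c) : ℂ_[p]) = (c.appr n : ℂ_[p]) +
      p ^ n * (fontaineTheta 𝓞_ℂ_[p] p (zpMap 𝓞_ℂ_[p] p d) : ℂ_[p]) := by
    conv_lhs => rw [hd]
    simp only [map_add, map_mul, map_pow, map_natCast]
    push_cast
    rfl
  have h2 : algebraMap ℚ_[p] ℂ_[p] (c : ℚ_[p]) = (c.appr n : ℂ_[p]) +
      p ^ n * algebraMap ℚ_[p] ℂ_[p] (d : ℚ_[p]) := by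
    conv_lhs => rw [hd]
    push_cast
    simp only [map_add, map_mul, map_pow, map_natCast]
  rw [h1, h2]
  have h3 : (c.appr n : ℂ_[p]) + p ^ n * (fontaineTheta 𝓞_ℂ_[p] p (zpMap 𝓞_ℂ_[p] p d) : ℂ_[p]) -
      ((c.appr n : ℂ_[p]) + p ^ n * algebraMap ℚ_[p] ℂ_[p] (d : ℚ_[p])) =
      p ^ n * ((fontaineTheta 𝓞_ℂ_[p] p (zpMap 𝓞_ℂ_[p] p d) : ℂ_[p]) +
        -algebraMap ℚ_[p] ℂ_[p] (d : ℚ_[p])) := by ring
  rw [h3, norm_mul, norm_pow]
  refine mul_le_of_le_one_right (by positivity) ?_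
  refine (IsUltrametricDist.norm_add_le_max _ _).trans (max_le (norm_int_le p _) ?_)
  rw [norm_neg]
  have h4 : ‖algebraMap ℚ_[p] ℂ_[p] (d : ℚ_[p])‖ = ‖(d : ℚ_[p])‖ := PadicComplex.norm_extends' p _
  rw [h4]
  exact d.norm_le_one

theorem Th_qpMap (c : ℤ_[p]) :
    Th p (qpMap 𝓞_ℂ_[p] p (c : ℚ_[p])) = algebraMap ℚ_[p] ℂ_[p] (c : ℚ_[p]) := by
  have h := qpMap_coe 𝓞_ℂ_[p] p c
  rw [show (c : ℚ_[p]) = algebraMap ℤ_[p] ℚ_[p] c from rfl, h, Th_algebraMap, theta_zpMap]
  rfl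

end Q276.HT
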