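import Mathlib
import Pool.Agent.Q276.HT.Theta
import Pool.Agent.Q276.HT.Eigen

/-!
The elements `ε^c` of the tilt of `𝓞_{ℂ_p}` and the Galois action on the uniformiser of `B_dR^+`.
-/

set_option linter.unusedSectionVars false
set_option backward.isDefEq.respectTransparency.types true

namespace Q276.HT

open Ideal WittVector Pool.Agent.W292.FM

variable {p : ℕ} [hp : Fact p.Prime]

/-- The residue of `c` modulo `p ^ n` as a natural number. -/
noncomputable def res (n : ℕ) (c : ℤ_[p]) : ℕ := (PadicInt.toZModPow n c).val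

instance neZeroPow (n : ℕ) : NeZero (p ^ n) := ⟨pow_ne_zero _ hp.out.ne_zero⟩

theorem res_add (n : ℕ) (c d : ℤ_[p]) : res n (c + d) ≡ res n c + res n d [MOD p ^ n] := by
  rw [← ZMod.natCast_eq_natCast_iff]
  simp only [res, Nat.cast_add, ZMod.natCast_zmod_val, map_add]

theorem res_mul (n : ℕ) (c d : ℤ_[p]) : res n (c * d) ≡ res n c * res n d [MOD p ^ n] := by
  rw [← ZMod.natCast_eq_natCast_iff]
  simp only [res, Nat.cast_mul, ZMod.natCast_zmod_val, map_mul]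

theorem res_natCast (n k : ℕ) : res n (k : ℤ_[p]) ≡ k [MOD p ^ n] := by
  rw [← ZMod.natCast_eq_natCast_iff]
  simp only [res, ZMod.natCast_zmod_val, map_natCast]

theorem res_succ (n : ℕ) (c : ℤ_[p]) : res (n + 1) c ≡ res n c [MOD p ^ n] := by
  rw [← ZMod.natCast_eq_natCast_iff]
  simp only [res, ZMod.natCast_zmod_val]
  have h := PadicInt.cast_toZModPow n (n + 1) (Nat.le_succ n) c
  rw [← h, ZMod.natCast_val]

section

variable {z : ℕ → PadicAlgCl p} (hz : ∀ n, IsPrimitiveRoot (z n) (p ^ n))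
  (hzs : ∀ n, z (n + 1) ^ p = z n)

/-- The roots of unity `z n` as elements of the ring of integers of `ℂ_p`. -/
noncomputable def zi (z : ℕ → PadicAlgCl p) (hz : ∀ n, IsPrimitiveRoot (z n) (p ^ n)) (n : ℕ) :
    𝓞_ℂ_[p] := ⟨(z n : ℂ_[p]), by
  rw [mem_int_iff, PadicComplex.norm_extends,
    norm_rootOfUnity (pow_ne_zero n hp.out.ne_zero) (hz n).pow_eq_one]⟩

theorem coe_zi (n : ℕ) : ((zi z hz n : 𝓞_ℂ_[p]) : ℂ_[p]) = (z n : ℂ_[p]) := rfl

theorem coe_pow_C (x : PadicAlgCl p) (n : ℕ) : ((x ^ n : PadicAlgCl p) : ℂ_[p]) = (x : ℂ_[p]) ^ n :=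
  map_pow (UniformSpace.Completion.coeRingHom (α := PadicAlgCl p)) x n

theorem zi_pow (n : ℕ) : zi z hz n ^ p ^ n = 1 := by
  apply Subtype.ext
  have h : (((zi z hz n) ^ p ^ n : 𝓞_ℂ_[p]) : ℂ_[p]) = ((z n ^ p ^ n : PadicAlgCl p) : ℂ_[p]) := by
    rw [coe_pow_C]; simp [coe_zi]
  rw [h, (hz n).pow_eq_one]
  simp

include hzs in
theorem zi_succ (n : ℕ) : zi z hz (n + 1) ^ p = zi z hz n := by
  apply Subtype.ext
  have h : (((zi z hz (n + 1)) ^ p : 𝓞_ℂ_[p]) : ℂ_[p]) = ((z (n + 1) ^ p : PadicAlgCl p) : ℂ_[p]) := by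
    rw [coe_pow_C]; simp [coe_zi]
  rw [h, hzs, coe_zi]

theorem zi_modEq {n a b : ℕ} (h : a ≡ b [MOD p ^ n]) : zi z hz n ^ a = zi z hz n ^ b :=
  pow_eq_pow_of_modEq h (zi_pow hz n)

/-- The element `ε^c` of the tilt. -/
noncomputable def eps (c : ℤ_[p]) : TT p := mkT (fun n => zi z hz n ^ res n c) (by
  intro n
  rw [← pow_mul, mul_comm, pow_mul, zi_succ hz hzs]
  exact zi_modEq hz (res_succ n c))

theorem coeff_eps (c : ℤ_[p]) (n : ℕ) :
    PreTilt.coeff n (eps hz hzs c) = Ideal.Quotient.mk _ (zi z hz n ^ res n c) := coeff_mkT _ _ n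

theorem eps_add (c d : ℤ_[p]) : eps hz hzs (c + d) = eps hz hzs c * eps hz hzs d := by
  refine Perfection.ext fun n => ?_
  change PreTilt.coeff n _ = PreTilt.coeff n _
  rw [map_mul, coeff_eps, coeff_eps, coeff_eps, ← map_mul, ← pow_add, zi_modEq hz (res_add n c d)]

theorem untilt_eps (c : ℤ_[p]) : (eps hz hzs c).untilt = 1 := by
  rw [eps, untilt_mkT]
  have h : zi z hz 0 = 1 := by
    have := zi_pow hz 0
    simpa using this
  rw [h, one_pow]

theorem exists_u (c : ℤ_[p]) : ∃ u : AI p, teichmuller p (eps hz hzs c) - 1 = xi p * u := by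
  apply xi_dvd
  rw [map_sub, fontaineTheta_teichmuller, untilt_eps, map_one, sub_self]

/-- `[ε^c] - 1 = ξ u_c`. -/
noncomputable def uu (c : ℤ_[p]) : AI p := (exists_u hz hzs c).choose

theorem uu_spec (c : ℤ_[p]) : teichmuller p (eps hz hzs c) - 1 = xi p * uu hz hzs c :=
  (exists_u hz hzs c).choose_spec

theorem xi_ne_zero : xi p ≠ 0 := by
  intro h
  apply xl_ne_zero (p := p)
  rw [xl, h, map_zero]

/-- `λ(c) = θ(u_c)`. -/
noncomputable def lam (c : ℤ_[p]) : ℂ_[p] := (fontaineTheta 𝓞_ℂ_[p] p (uu hz hzs c) : ℂ_[p])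

theorem lam_add (c d : ℤ_[p]) : lam hz hzs (c + d) = lam hz hzs c + lam hz hzs d := by
  have h : uu hz hzs (c + d) = teichmuller p (eps hz hzs c) * uu hz hzs d + uu hz hzs c := by
    apply mul_left_cancel₀ xi_ne_zero
    rw [← uu_spec, eps_add, map_mul, mul_add, ← uu_spec hz hzs c]
    have h2 := uu_spec hz hzs d
    linear_combination (teichmuller p (eps hz hzs c)) * h2
  unfold lam
  rw [h, map_add, map_mul, fontaineTheta_teichmuller, untilt_eps, one_mul]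
  push_cast
  ring

theorem norm_lam_le (c : ℤ_[p]) : ‖lam hz hzs c‖ ≤ 1 := norm_int_le p _

/-- `lam` as an additive homomorphism. -/
noncomputable def lamHom : ℤ_[p] →+ ℂ_[p] := AddMonoidHom.mk' (lam hz hzs) (lam_add hz hzs)

theorem lam_nat_mul (k : ℕ) (d : ℤ_[p]) : lam hz hzs (k * d) = k * lam hz hzs d := by
  have h := map_nsmul (lamHom hz hzs) k d
  simp only [nsmul_eq_mul] at h
  exact h

theorem lam_eq (c : ℤ_[p]) : lam hz hzs c = algebraMap ℚ_[p] ℂ_[p] (c : ℚ_[p]) * lam hz hzs 1 := by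
  rw [← sub_eq_zero, ← norm_le_zero_iff]
  refine ge_of_tendsto' (tendsto_norm_p_pow p) fun n => ?_
  obtain ⟨d, hd⟩ : ∃ d, c = (c.appr n : ℤ_[p]) * 1 + ((p ^ n : ℕ) : ℤ_[p]) * d := by
    have h := PadicInt.appr_spec n c
    rw [Ideal.mem_span_singleton] at h
    obtain ⟨d, hd⟩ := h
    refine ⟨d, ?_⟩
    push_cast
    rw [← hd]; ring
  have h1 : lam hz hzs c = (c.appr n : ℂ_[p]) * lam hz hzs 1 + (p : ℂ_[p]) ^ n * lam hz hzs d := by
    conv_lhs => rw [hd, lam_add, lam_nat_mul, lam_nat_mul]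
    push_cast
    rfl
  have h2 : algebraMap ℚ_[p] ℂ_[p] (c : ℚ_[p]) = (c.appr n : ℂ_[p]) +
      p ^ n * algebraMap ℚ_[p] ℂ_[p] (d : ℚ_[p]) := by
    have e : (c : ℚ_[p]) = (c.appr n : ℚ_[p]) + (p : ℚ_[p]) ^ n * (d : ℚ_[p]) := by
      conv_lhs => rw [hd]
      push_cast
      ring
    rw [e, map_add, map_mul, map_pow, map_natCast, map_natCast]
  rw [h1, h2]
  have h3 : (c.appr n : ℂ_[p]) * lam hz hzs 1 + (p : ℂ_[p]) ^ n * lam hz hzs d -
      ((c.appr n : ℂ_[p]) + p ^ n * algebraMap ℚ_[p] ℂ_[p] (d : ℚ_[p])) * lam hz hzs 1 =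
      p ^ n * (lam hz hzs d + -(algebraMap ℚ_[p] ℂ_[p] (d : ℚ_[p]) * lam hz hzs 1)) := by ring
  rw [h3, norm_mul, norm_pow]
  refine mul_le_of_le_one_right (by positivity) ?_
  refine (IsUltrametricDist.norm_add_le_max _ _).trans (max_le (norm_lam_le _ _ _) ?_)
  rw [norm_neg, norm_mul]
  have h4 : ‖algebraMap ℚ_[p] ℂ_[p] (d : ℚ_[p])‖ = ‖(d : ℚ_[p])‖ := PadicComplex.norm_extends' p _
  rw [h4]
  exact mul_le_one₀ d.norm_le_one (norm_nonneg _) (norm_lam_le _ _ _)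

theorem lam_one_ne_zero (hp2 : p ≠ 2) : lam hz hzs 1 ≠ 0 := by
  intro h
  have h0 : fontaineTheta 𝓞_ℂ_[p] p (uu hz hzs 1) = 0 := Subtype.ext h
  obtain ⟨w, hw⟩ := xi_dvd _ h0
  have h1 := uu_spec hz hzs 1
  rw [hw] at h1
  have h2 := congrArg WittVector.constantCoeff h1
  have hxi : WittVector.constantCoeff (xi p) = pflat p := by
    rw [xi, map_sub, map_natCast, CharP.cast_eq_zero, sub_zero]
    exact coeff_zero_teich _
  rw [map_sub, map_one, map_mul, map_mul, hxi] at h2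
  have h3 : WittVector.constantCoeff (teichmuller p (eps hz hzs 1)) = eps hz hzs 1 :=
    coeff_zero_teich _
  rw [h3] at h2
  have h4 := congrArg (PreTilt.coeff 1) h2
  rw [map_sub, map_one, map_mul, map_mul, coeff_eps] at h4
  have hpf : PreTilt.coeff 1 (pflat p) = Ideal.Quotient.mk _ (pseq p 1) := coeff_mkT _ _ 1
  obtain ⟨b, hb⟩ := Ideal.Quotient.mk_surjective (PreTilt.coeff 1 (WittVector.constantCoeff w))
  have hres : zi z hz 1 ^ res 1 (1 : ℤ_[p]) = zi z hz 1 := by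
    have := res_natCast (p := p) 1 1
    rw [Nat.cast_one] at this
    rw [zi_modEq hz this, pow_one]
  rw [hpf, ← hb, hres, ← map_one (Ideal.Quotient.mk (span {(p : 𝓞_ℂ_[p])})), ← map_sub, ← map_mul,
    ← map_mul, ← sub_eq_zero, ← map_sub, mk_eq_zero_iff] at h4
  -- norms
  have hp1 : (1 : ℝ) < p := one_lt_p p
  have hp0 : (0 : ℝ) < p := by linarith
  have hp3 : 3 ≤ p := by
    have := hp.out.two_le; omega
  set a : ℝ := ‖(zi z hz 1 : ℂ_[p]) - 1‖ with ha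
  set B : ℝ := ‖(pseq p 1 : ℂ_[p])‖ with hB
  have e1 : (((zi z hz 1 - 1 - pseq p 1 * (pseq p 1 * b) : 𝓞_ℂ_[p])) : ℂ_[p]) =
      ((zi z hz 1 : ℂ_[p]) - 1) + -((pseq p 1 : ℂ_[p]) * ((pseq p 1 : ℂ_[p]) * (b : ℂ_[p]))) := by
    push_cast; ring
  have hmax : a ≤ max (p : ℝ)⁻¹ (B ^ 2) := by
    have e2 : (zi z hz 1 : ℂ_[p]) - 1 = (((zi z hz 1 - 1 - pseq p 1 * (pseq p 1 * b) : 𝓞_ℂ_[p])) :
        ℂ_[p]) + (pseq p 1 : ℂ_[p]) * ((pseq p 1 : ℂ_[p]) * (b : ℂ_[p])) := by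
      rw [e1]; ring
    rw [ha, e2]
    refine (IsUltrametricDist.norm_add_le_max _ _).trans (max_le_max ?_ ?_)
    · rw [← norm_p p]; exact h4
    · rw [norm_mul, norm_mul, ← mul_assoc, ← hB, ← pow_two]
      exact mul_le_of_le_one_right (by positivity) (norm_int_le p b)
  have hBp : B ^ p = (p : ℝ)⁻¹ := by
    have := norm_pseq_pow (p := p) 1
    rw [pow_one, norm_p] at this
    exact this
  have hap : a ^ (p - 1) = (p : ℝ)⁻¹ := by
    have h5 : a = ‖z 1 - 1‖ := by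
      rw [ha, coe_zi, ← PadicComplex.norm_extends, UniformSpace.Completion.coe_sub,
        UniformSpace.Completion.coe_one]
    have h6 := norm_sub_one_pow_totient (z := z 1) (n := 0) (by simpa using hz 1)
    rw [zero_add, pow_one, Nat.totient_prime hp.out] at h6
    rw [h5, h6]
  have ha0 : 0 ≤ a := norm_nonneg _
  have hB0 : 0 ≤ B := norm_nonneg _
  have hinv0 : 0 < (p : ℝ)⁻¹ := inv_pos.2 hp0
  have hinv1 : (p : ℝ)⁻¹ < 1 := inv_lt_one_of_one_lt₀ hp1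
  rcases le_max_iff.1 hmax with h5 | h5
  · -- `a ≤ p⁻¹`
    have h6 : a ^ (p - 1) ≤ ((p : ℝ)⁻¹) ^ (p - 1) := pow_le_pow_left₀ ha0 h5 _
    rw [hap] at h6
    have h7 : ((p : ℝ)⁻¹) ^ (p - 1) < ((p : ℝ)⁻¹) ^ 1 :=
      pow_lt_pow_right_of_lt_one₀ hinv0 hinv1 (by omega)
    rw [pow_one] at h7
    linarith
  · -- `a ≤ B ^ 2`
    have h6 : (a ^ (p - 1)) ^ p ≤ (B ^ p) ^ (2 * (p - 1)) := by
      have h7 : a ^ ((p - 1) * p) ≤ (B ^ 2) ^ ((p - 1) * p) := pow_le_pow_left₀ ha0 h5 _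
      rw [← pow_mul, ← pow_mul]
      rw [← pow_mul] at h7
      have e : 2 * ((p - 1) * p) = p * (2 * (p - 1)) := by ring
      rwa [e] at h7
    rw [hap, hBp] at h6
    have h7 : ((p : ℝ)⁻¹) ^ (2 * (p - 1)) < ((p : ℝ)⁻¹) ^ p :=
      pow_lt_pow_right_of_lt_one₀ hinv0 hinv1 (by omega)
    linarith

/-- The cyclotomic character on `Gal(ℚ̄_p/ℚ_p)`. -/
noncomputable def chi (g : Gal(PadicAlgCl p/ℚ_[p])) : ℤ_[p]ˣ :=
  cyclotomicCharacter (PadicAlgCl p) p (g : PadicAlgCl p ≃+* PadicAlgCl p)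

include hz in
theorem chi_spec (g : Gal(PadicAlgCl p/ℚ_[p])) (n : ℕ) :
    g (z n) = z n ^ res n (chi g : ℤ_[p]) := by
  have inst : ∀ i, HasEnoughRootsOfUnity (PadicAlgCl p) (p ^ i) := fun i =>
    ⟨⟨z i, hz i⟩, rootsOfUnity.isCyclic _ _⟩
  exact cyclotomicCharacter.spec p (g : PadicAlgCl p ≃+* PadicAlgCl p) (z n) (hz n).pow_eq_one

theorem tiltMap_eps (g : Gal(PadicAlgCl p/ℚ_[p])) :
    tiltMap p (intMap p g) (eps hz hzs 1) = eps hz hzs (chi g : ℤ_[p]) := by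
  refine Perfection.ext fun n => ?_
  change PreTilt.coeff n _ = PreTilt.coeff n _
  rw [coeff_tiltMap, coeff_eps, coeff_eps, modPMap_mk]
  congr 1
  have hres : zi z hz n ^ res n (1 : ℤ_[p]) = zi z hz n := by
    have := res_natCast (p := p) n 1
    rw [Nat.cast_one] at this
    rw [zi_modEq hz this, pow_one]
  rw [hres]
  apply Subtype.ext
  rw [coe_intMap, coe_zi, cpMap_coe, chi_spec hz g n, coe_pow_C]
  simp [coe_zi]

/-- The cocycle of the Galois action on the uniformiser. -/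
theorem cocycle (g : Gal(PadicAlgCl p/ℚ_[p])) :
    ∃ d : AL p, locMap p (intMap p g) (xl p) = xl p * d ∧
      Th p d * cpMap p g (lam hz hzs 1) =
        algebraMap ℚ_[p] ℂ_[p] ((chi g : ℤ_[p]) : ℚ_[p]) * lam hz hzs 1 := by
  have h1 : locMap p (intMap p g) (xl p) ∈ kerT 𝓞_ℂ_[p] p := by
    apply locMap_mem_ker
    rw [← kerT, kerT_eq]
    exact Ideal.mem_span_singleton_self _
  rw [kerT_eq, Ideal.mem_span_singleton] at h1
  obtain ⟨d, hd⟩ := h1
  refine ⟨d, hd, ?_⟩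
  have h2 : locMap p (intMap p g) (algebraMap (AI p) (AL p) (teichmuller p (eps hz hzs 1) - 1)) =
      locMap p (intMap p g) (algebraMap (AI p) (AL p) (xi p * uu hz hzs 1)) := by
    rw [uu_spec]
  rw [map_mul, map_mul, ← xl, hd, locMap_algebraMap, map_sub, map_one, map_teichmuller,
    tiltMap_eps, uu_spec, map_mul, ← xl, mul_assoc] at h2
  have h3 := mul_left_cancel₀ (M₀ := AL p) xl_ne_zero h2
  have h4 := congrArg (Th p) h3
  rw [Th_algebraMap, map_mul, Th_locMap, Th_algebraMap] at h4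
  change lam hz hzs (chi g : ℤ_[p]) = Th p d * cpMap p g (lam hz hzs 1) at h4
  rw [← h4, lam_eq]

end

end Q276.HT
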