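import Mathlib
import Pool.Agent.Q276.HT.Eps
import Pool.Agent.Q276.HT.Compl

/-!
Mathlib's `BDeRham` over `ℂ_p` contains no nonzero period for a character of the cyclotomic Galois
group none of whose Tate twists has finite order.
-/

set_option linter.unusedSectionVars false
set_option backward.isDefEq.respectTransparency.types true

namespace Q276.HT

open Ideal WittVector Pool.Agent.W292.FM

variable {p : ℕ} [hp : Fact p.Prime]

/-- `B_dR^+`. -/
abbrev BP (p : ℕ) [hp : Fact p.Prime] : Type := BDeRhamPlus 𝓞_ℂ_[p] p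

/-- The element `ξ` of `B_dR^+`. -/
noncomputable def xb (p : ℕ) [hp : Fact p.Prime] : BP p := toPlus p (xl p)

theorem toPlus_eq_toC (x : AL p) : toPlus p x = toC (kerT 𝓞_ℂ_[p] p) x := rfl

/-- The extension of `θ` to `B_dR^+`. -/
noncomputable def ThP (p : ℕ) [hp : Fact p.Prime] : BP p →+* ℂ_[p] :=
  (Ideal.Quotient.lift (kerT 𝓞_ℂ_[p] p ^ 1) (Th p) (fun a ha => by
    rw [pow_one] at ha; exact (Th_eq_zero_iff a).2 ha)).comp (evalP p 1)

theorem ThP_toPlus (x : AL p) : ThP p (toPlus p x) = Th p x := by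
  rw [ThP, RingHom.comp_apply, evalP_toPlus, Ideal.Quotient.lift_mk]

theorem ThP_ne_zero {y : BP p} (h : evalP p 1 y ≠ 0) : ThP p y ≠ 0 := by
  obtain ⟨a, ha⟩ := Ideal.Quotient.mk_surjective (evalP p 1 y)
  rw [ThP, RingHom.comp_apply, ← ha, Ideal.Quotient.lift_mk]
  intro h0
  apply h
  rw [← ha, Ideal.Quotient.eq_zero_iff_mem, pow_one]
  exact (Th_eq_zero_iff a).1 h0

theorem ThP_plusMap (g : Gal(PadicAlgCl p/ℚ_[p])) (y : BP p) :
    ThP p (plusMap p (intMap p g) y) = cpMap p g (ThP p y) := by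
  obtain ⟨a, ha⟩ := Ideal.Quotient.mk_surjective (evalP p 1 y)
  rw [ThP, RingHom.comp_apply, RingHom.comp_apply, evalP_plusMap, ← ha, Ideal.quotientMap_mk,
    Ideal.Quotient.lift_mk, Ideal.Quotient.lift_mk, Th_locMap]

theorem xb_pow_mul_eq_zero (m : ℕ) {y : BP p} (h : xb p ^ m * y = 0) : y = 0 := by
  have := isDomain_AL (p := p)
  exact toC_pow_mul_eq_zero (I := kerT 𝓞_ℂ_[p] p) (ξ := xl p) kerT_eq xl_ne_zero m h

theorem exists_valB {x : BP p} (hx : x ≠ 0) : ∃ m y, x = xb p ^ m * y ∧ ThP p y ≠ 0 := by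
  have := isDomain_AL (p := p)
  obtain ⟨m, y, h1, h2⟩ := exists_val (I := kerT 𝓞_ℂ_[p] p) (ξ := xl p) kerT_eq xl_ne_zero
    (x := x) hx
  exact ⟨m, y, h1, ThP_ne_zero h2⟩

theorem mul_eq_zero_of_ThP {w D : BP p} (hw : ThP p w ≠ 0) (h : w * D = 0) : D = 0 := by
  by_contra hD
  obtain ⟨m, y, h1, h2⟩ := exists_valB hD
  have h3 : xb p ^ m * (w * y) = 0 := by rw [← h, h1]; ring
  have h4 := congrArg (ThP p) (xb_pow_mul_eq_zero m h3)
  rw [map_mul, map_zero] at h4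
  exact mul_ne_zero hw h2 h4

theorem genSub_form {s : BP p} (hs : s ∈ genSub 𝓞_ℂ_[p] p) :
    ∃ k w, s = xb p ^ k * w ∧ ThP p w ≠ 0 := by
  have := isDomain_AL (p := p)
  induction hs using Submonoid.closure_induction with
  | mem x hx =>
    obtain ⟨a, ha, rfl⟩ := hx
    have ha' : kerT 𝓞_ℂ_[p] p = Ideal.span {a} := ha
    have h1 : a ∈ kerT 𝓞_ℂ_[p] p := by rw [ha']; exact Ideal.mem_span_singleton_self a
    have h2 : xl p ∈ kerT 𝓞_ℂ_[p] p := by rw [kerT_eq]; exact Ideal.mem_span_singleton_self _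
    rw [kerT_eq, Ideal.mem_span_singleton] at h1
    rw [ha', Ideal.mem_span_singleton] at h2
    obtain ⟨w, hw⟩ := h1
    obtain ⟨w', hw'⟩ := h2
    have h3 : xl p * (w * w') = xl p * 1 := by
      rw [mul_one]
      conv_rhs => rw [hw', hw]
      ring
    have h4 : w * w' = 1 := mul_left_cancel₀ xl_ne_zero h3
    refine ⟨1, toPlus p w, ?_, ?_⟩
    · rw [pow_one, xb, ← map_mul, ← hw]; rfl
    · rw [ThP_toPlus]
      intro h5
      have h6 := congrArg (Th p) h4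
      rw [map_mul, h5, zero_mul, map_one] at h6
      exact zero_ne_one h6
  | one => exact ⟨0, 1, by simp, by rw [map_one]; exact one_ne_zero⟩
  | mul x y _ _ hx hy =>
    obtain ⟨k, w, h1, h2⟩ := hx
    obtain ⟨k', w', h1', h2'⟩ := hy
    exact ⟨k + k', w * w', by rw [h1, h1']; ring, by rw [map_mul]; exact mul_ne_zero h2 h2'⟩

theorem genSub_cancel {s : BP p} (hs : s ∈ genSub 𝓞_ℂ_[p] p) {D : BP p} (h : s * D = 0) : D = 0 := by
  obtain ⟨k, w, h1, h2⟩ := genSub_form hs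
  apply mul_eq_zero_of_ThP h2
  apply xb_pow_mul_eq_zero k
  rw [← h, h1]; ring

theorem modEq_of_pow_eq {M : Type*} [CommMonoid M] {x : M} {N a b : ℕ} (hx : IsPrimitiveRoot x N)
    (hN : N ≠ 0) (h : x ^ a = x ^ b) : a ≡ b [MOD N] := by
  have h1 : ∀ c : ℕ, x ^ (c % N) = x ^ c := fun c =>
    pow_eq_pow_of_modEq (Nat.mod_modEq c N) hx.pow_eq_one
  exact hx.pow_inj (Nat.mod_lt _ (Nat.pos_of_ne_zero hN)) (Nat.mod_lt _ (Nat.pos_of_ne_zero hN))
    (by rw [h1, h1, h])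

/-- There is no nonzero period for `ψ` in `B_dR` if all the twists `ψ χ^j` are nontrivial on small
open subgroups of the cyclotomic Galois group. -/
theorem no_period (hp2 : p ≠ 2) {z : ℕ → PadicAlgCl p} (hz : ∀ n, IsPrimitiveRoot (z n) (p ^ n))
    (hzs : ∀ n, z (n + 1) ^ p = z n) (ψ : Gal(PadicAlgCl p/ℚ_[p]) → ℤ_[p])
    (h1 : ∀ g : Gal(PadicAlgCl p/ℚ_[p]), (∀ n, g (z n) = z n) → ψ g = 1)
    (h2 : ∀ j : ℤ, ∀ m : ℕ, m ≠ 0 → ∃ c : ℝ, 0 < c ∧ ∀ g : Gal(PadicAlgCl p/ℚ_[p]),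
      g (z (m + 1)) = z (m + 1) ^ (1 + p ^ m) → c ≤ ‖ψ g * ((chi g ^ j : ℤ_[p]ˣ) : ℤ_[p]) - 1‖)
    (b : Localization (genSub 𝓞_ℂ_[p] p)) (hb : ∀ g : Gal(PadicAlgCl p/ℚ_[p]),
      bdrMap p (intMap p g) b = algebraMap ℚ_[p] _ (ψ g : ℚ_[p]) * b) : b = 0 := by
  have := isDomain_AL (p := p)
  by_contra hb0
  obtain ⟨x, s, rfl⟩ := IsLocalization.exists_mk'_eq (genSub 𝓞_ℂ_[p] p) b
  have hx0 : x ≠ 0 := by
    rintro rfl
    exact hb0 (IsLocalization.mk'_zero _)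
  obtain ⟨m, Z, hxZ, hZ⟩ := exists_valB hx0
  obtain ⟨k, W, hsW, hW⟩ := genSub_form s.2
  have hchi : ∀ g : Gal(PadicAlgCl p/ℚ_[p]), (∀ n, g (z n) = z n) → chi g = 1 := by
    intro g hg
    apply Units.ext
    rw [← PadicInt.ext_of_toZModPow]
    intro n
    rw [Units.val_one, map_one]
    have h3 := chi_spec hz g n
    rw [hg n] at h3
    have h4 : z n ^ 1 = z n ^ res n (chi g : ℤ_[p]) := by rw [pow_one]; exact h3
    have h5 := modEq_of_pow_eq (hz n) (pow_ne_zero _ hp.out.ne_zero) h4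
    rw [← ZMod.natCast_eq_natCast_iff, res, ZMod.natCast_zmod_val, Nat.cast_one] at h5
    exact h5.symm
  -- the relation in `B_dR^+`
  have hrel : ∀ g : Gal(PadicAlgCl p/ℚ_[p]), plusMap p (intMap p g) x * s =
      toPlus p (qpMap 𝓞_ℂ_[p] p (ψ g : ℚ_[p])) * x * plusMap p (intMap p g) s := by
    intro g
    have h3 := hb g
    rw [algebraMap_bdr, bdrMap, IsLocalization.map_mk'] at h3
    have h4 : (algebraMap (BDeRhamPlus 𝓞_ℂ_[p] p) (Localization (genSub 𝓞_ℂ_[p] p)))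
        (toPlus p (qpMap 𝓞_ℂ_[p] p (ψ g : ℚ_[p]))) * IsLocalization.mk' _ x s =
        IsLocalization.mk' _ (toPlus p (qpMap 𝓞_ℂ_[p] p (ψ g : ℚ_[p])) * x) s := by
      rw [IsLocalization.mul_mk'_eq_mk'_of_mul]
    rw [h4, IsLocalization.mk'_eq_iff_eq, ← sub_eq_zero, ← map_sub,
      IsLocalization.map_eq_zero_iff (genSub 𝓞_ℂ_[p] p)] at h3
    obtain ⟨c, hc⟩ := h3
    have h5 := genSub_cancel c.2 hc
    rw [sub_eq_zero] at h5
    linear_combination h5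
  set V : ℂ_[p] := lam hz hzs 1 with hV
  have hV0 : V ≠ 0 := lam_one_ne_zero hz hzs hp2
  set Zc : ℂ_[p] := ThP p Z with hZc
  set Wc : ℂ_[p] := ThP p W with hWc
  set y : ℂ_[p] := Zc / Wc * V ^ ((k : ℤ) - m) with hy
  have hy0 : y ≠ 0 := mul_ne_zero (div_ne_zero hZ hW) (zpow_ne_zero _ hV0)
  apply hy0
  refine no_eigen hp2 hz hzs (fun g => ψ g * ((chi g ^ ((k : ℤ) - m) : ℤ_[p]ˣ) : ℤ_[p])) ?_ ?_ y ?_
  · intro g hg
    rw [h1 g hg, hchi g hg, one_zpow, Units.val_one, mul_one]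
  · intro m' hm'
    exact h2 ((k : ℤ) - m) m' hm'
  · intro g
    obtain ⟨d, hd1, hd2⟩ := cocycle hz hzs g
    rw [← hV] at hd2
    have hxb : plusMap p (intMap p g) (xb p) = xb p * toPlus p d := by
      rw [xb, plusMap_toPlus, hd1, map_mul]
    have h3 := hrel g
    rw [hsW, hxZ, map_mul, map_mul, map_pow, map_pow, hxb] at h3
    have h4 : xb p ^ (m + k) * (toPlus p d ^ m * plusMap p (intMap p g) Z * W -
        toPlus p (qpMap 𝓞_ℂ_[p] p (ψ g : ℚ_[p])) * Z * (toPlus p d ^ k *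
          plusMap p (intMap p g) W)) = 0 := by
      rw [pow_add]
      linear_combination h3
    have h5 := congrArg (ThP p) (xb_pow_mul_eq_zero _ h4)
    simp only [map_sub, map_mul, map_pow, map_zero, ThP_toPlus, ThP_plusMap, Th_qpMap] at h5
    rw [← hZc, ← hWc] at h5
    set D : ℂ_[p] := Th p d with hD
    set X : ℂ_[p] := algebraMap ℚ_[p] ℂ_[p] ((chi g : ℤ_[p]) : ℚ_[p]) with hX
    have hXn : X ≠ 0 := by
      rw [hX, map_ne_zero]
      intro h6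
      have h7 : (chi g : ℤ_[p]) = 0 := Subtype.ext h6
      exact (chi g).ne_zero h7
    have hgV : cpMap p g V ≠ 0 := by
      rw [Ne, map_eq_zero_iff _ (cpMap p g).injective]; exact hV0
    have hgW : cpMap p g Wc ≠ 0 := by
      rw [Ne, map_eq_zero_iff _ (cpMap p g).injective]; exact hW
    have hDn : D ≠ 0 := by
      intro h6
      rw [h6, zero_mul] at hd2
      exact mul_ne_zero hXn hV0 hd2.symm
    have hunit : algebraMap ℚ_[p] ℂ_[p]
        ((ψ g * ((chi g ^ ((k : ℤ) - m) : ℤ_[p]ˣ) : ℤ_[p]) : ℤ_[p]) : ℚ_[p]) =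
        algebraMap ℚ_[p] ℂ_[p] (ψ g : ℚ_[p]) * X ^ ((k : ℤ) - m) := by
      have h6 : ∀ (u : ℤ_[p]ˣ) (i : ℤ), algebraMap ℚ_[p] ℂ_[p] (((u ^ i : ℤ_[p]ˣ) : ℤ_[p]) : ℚ_[p]) =
          (algebraMap ℚ_[p] ℂ_[p] ((u : ℤ_[p]) : ℚ_[p])) ^ i := by
        intro u i
        let φ : ℤ_[p] →* ℂ_[p] := ((algebraMap ℚ_[p] ℂ_[p]).comp
          (algebraMap ℤ_[p] ℚ_[p]) : ℤ_[p] →+* ℂ_[p])
        have h7 := Units.val_zpow_eq_zpow_val (Units.map φ u) i
        rw [← map_zpow] at h7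
        exact h7
      rw [PadicInt.coe_mul, map_mul, h6]
    rw [hunit, hy, map_mul, map_div₀, map_zpow₀]
    have h6 : cpMap p g V = X * V / D := by
      rw [eq_div_iff hDn, mul_comm]; exact hd2
    have h7 : cpMap p g Zc = algebraMap ℚ_[p] ℂ_[p] (ψ g : ℚ_[p]) * Zc * (D ^ k * cpMap p g Wc) /
        (D ^ m * Wc) := by
      rw [eq_div_iff (mul_ne_zero (pow_ne_zero _ hDn) hW)]
      linear_combination h5
    rw [h6, h7, div_zpow, mul_zpow, zpow_sub₀ hDn, zpow_natCast, zpow_natCast]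
    field_simp

end Q276.HT
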