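import Mathlib

/-!
The `2(p-1)`-th root of `x ^ (p - 1)` on the units of `ℤ_p`, `p` odd.
-/

set_option linter.unusedSectionVars false

namespace Q276.HT

open Polynomial

variable {p : ℕ} [hp : Fact p.Prime]

/-- the exponent `2 (p - 1)` -/
def ex (p : ℕ) : ℕ := 2 * (p - 1)

theorem norm_ex (hp2 : p ≠ 2) : ‖((ex p : ℕ) : ℤ_[p])‖ = 1 := by
  rw [ex]
  have h3 : 3 ≤ p := by have := hp.out.two_le; omega
  have hc : Nat.Coprime p (2 * (p - 1)) := by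
    rw [Nat.Prime.coprime_iff_not_dvd hp.out]
    intro h
    rcases (Nat.Prime.dvd_mul hp.out).1 h with h | h
    · have := Nat.le_of_dvd (by norm_num) h; omega
    · have := Nat.le_of_dvd (by omega) h; omega
  have h := PadicInt.norm_natCast_eq_one_iff (p := p) (n := 2 * (p - 1))
  exact h.2 hc

theorem exists_root_one (hp2 : p ≠ 2) {u : ℤ_[p]} (hu : ‖u - 1‖ < 1) :
    ∃ v : ℤ_[p], v ^ ex p = u ∧ ‖v - 1‖ < 1 ∧ ∀ v' : ℤ_[p], v' ^ ex p = u → ‖v' - 1‖ < 1 → v' = v := by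
  have hd : ‖(aeval (1 : ℤ_[p])) (derivative (X ^ ex p - C u : ℤ_[p][X]))‖ = 1 := by
    simp only [derivative_sub, derivative_X_pow, derivative_C, sub_zero, map_mul, map_pow,
      aeval_X, one_pow, mul_one, map_natCast]
    exact norm_ex hp2
  have hn : ‖(aeval (1 : ℤ_[p])) (X ^ ex p - C u : ℤ_[p][X])‖ <
      ‖(aeval (1 : ℤ_[p])) (derivative (X ^ ex p - C u : ℤ_[p][X]))‖ ^ 2 := by
    rw [hd]
    simp only [map_sub, map_pow, aeval_X, one_pow, aeval_C]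
    rw [norm_sub_rev]
    exact hu
  obtain ⟨v, h1, h2, _, h4⟩ := hensels_lemma hn
  rw [hd] at h2 h4
  refine ⟨v, ?_, h2, fun v' hv' hv1 => h4 v' ?_ hv1⟩
  · have h5 : v ^ ex p - u = 0 := by
      simpa [map_sub, map_pow, aeval_X, aeval_C] using h1
    exact sub_eq_zero.1 h5
  · simp only [map_sub, map_pow, aeval_X, aeval_C]
    rw [hv']
    exact sub_self _

theorem norm_pow_sub_one_lt (x : ℤ_[p]ˣ) : ‖(x : ℤ_[p]) ^ (p - 1) - 1‖ < 1 := by
  rw [PadicInt.norm_lt_one_iff_dvd, ← Ideal.mem_span_singleton, ← PadicInt.maximalIdeal_eq_span_p,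
    ← PadicInt.ker_toZMod, RingHom.mem_ker, map_sub, map_pow, map_one, sub_eq_zero]
  apply ZMod.pow_card_sub_one_eq_one
  exact (x.isUnit.map (PadicInt.toZMod (p := p))).ne_zero

section

variable (hp2 : p ≠ 2)

/-- the root `v` of `v ^ (2 (p - 1)) = x ^ (p - 1)` which is congruent to `1` modulo `p` -/
noncomputable def rootFun (x : ℤ_[p]ˣ) : ℤ_[p] := (exists_root_one hp2 (norm_pow_sub_one_lt x)).choose

theorem rootFun_pow (x : ℤ_[p]ˣ) : rootFun hp2 x ^ ex p = (x : ℤ_[p]) ^ (p - 1) :=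
  (exists_root_one hp2 (norm_pow_sub_one_lt x)).choose_spec.1

theorem rootFun_norm (x : ℤ_[p]ˣ) : ‖rootFun hp2 x - 1‖ < 1 :=
  (exists_root_one hp2 (norm_pow_sub_one_lt x)).choose_spec.2.1

theorem rootFun_unique (x : ℤ_[p]ˣ) {v : ℤ_[p]} (h : v ^ ex p = (x : ℤ_[p]) ^ (p - 1))
    (h1 : ‖v - 1‖ < 1) : v = rootFun hp2 x :=
  (exists_root_one hp2 (norm_pow_sub_one_lt x)).choose_spec.2.2 v h h1

theorem mul_norm_lt {v w : ℤ_[p]} (hv : ‖v - 1‖ < 1) (hw : ‖w - 1‖ < 1) : ‖v * w - 1‖ < 1 := by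
  have e : v * w - 1 = (v - 1) * w + (w - 1) := by ring
  rw [e]
  refine lt_of_le_of_lt (IsUltrametricDist.norm_add_le_max _ _) (max_lt ?_ hw)
  rw [norm_mul]
  exact lt_of_le_of_lt (mul_le_of_le_one_right (norm_nonneg _) w.norm_le_one) hv

/-- `rootFun` as a homomorphism `ℤ_pˣ → ℤ_pˣ` -/
noncomputable def rootHom : ℤ_[p]ˣ →* ℤ_[p]ˣ := MonoidHom.toHomUnits
  { toFun := rootFun hp2
    map_one' := (rootFun_unique hp2 1 (by simp) (by simp)).symm
    map_mul' := fun x y => (rootFun_unique hp2 (x * y) (by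
      rw [mul_pow, rootFun_pow, rootFun_pow, Units.val_mul, mul_pow])
      (mul_norm_lt (rootFun_norm hp2 x) (rootFun_norm hp2 y))).symm }

theorem coe_rootHom (x : ℤ_[p]ˣ) : ((rootHom hp2 x : ℤ_[p]ˣ) : ℤ_[p]) = rootFun hp2 x := rfl

theorem rootHom_pow (x : ℤ_[p]ˣ) : rootHom hp2 x ^ ex p = x ^ (p - 1) := by
  apply Units.ext
  rw [Units.val_pow_eq_pow_val, Units.val_pow_eq_pow_val]
  exact rootFun_pow hp2 x

theorem norm_pow_ex_sub_one (hp2 : p ≠ 2) {v : ℤ_[p]} (hv : ‖v - 1‖ < 1) : ‖v ^ ex p - 1‖ = ‖v - 1‖ := by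
  have h1 : v ^ ex p - 1 = (∑ i ∈ Finset.range (ex p), v ^ i) * (v - 1) := (geom_sum_mul v _).symm
  rw [h1, norm_mul]
  have h2 : ‖∑ i ∈ Finset.range (ex p), v ^ i‖ = 1 := by
    have h3 : ∑ i ∈ Finset.range (ex p), v ^ i =
        ((ex p : ℕ) : ℤ_[p]) + ∑ i ∈ Finset.range (ex p), (v ^ i - 1) := by
      rw [Finset.sum_sub_distrib]; simp
    have h4 : ‖∑ i ∈ Finset.range (ex p), (v ^ i - 1)‖ < 1 := by
      refine lt_of_le_of_lt (IsUltrametricDist.norm_sum_le_of_forall_le_of_nonneg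
        (norm_nonneg (v - 1)) fun i _ => ?_) hv
      have h5 : v ^ i - 1 = (∑ j ∈ Finset.range i, v ^ j) * (v - 1) := (geom_sum_mul v _).symm
      rw [h5, norm_mul]
      exact mul_le_of_le_one_left (norm_nonneg _) (PadicInt.norm_le_one _)
    rw [h3, IsUltrametricDist.norm_add_eq_max_of_norm_ne_norm, norm_ex hp2, max_eq_left h4.le]
    rw [norm_ex hp2]; exact h4.ne'
  rw [h2, one_mul]

theorem norm_rootFun_sub_one (x : ℤ_[p]ˣ) : ‖rootFun hp2 x - 1‖ ≤ ‖(x : ℤ_[p]) - 1‖ := by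
  rw [← norm_pow_ex_sub_one hp2 (rootFun_norm hp2 x), rootFun_pow]
  have h5 : (x : ℤ_[p]) ^ (p - 1) - 1 = (∑ j ∈ Finset.range (p - 1), (x : ℤ_[p]) ^ j) * (x - 1) :=
    (geom_sum_mul _ _).symm
  rw [h5, norm_mul]
  exact mul_le_of_le_one_left (norm_nonneg _) (PadicInt.norm_le_one _)

theorem continuous_rootFun : Continuous (rootFun hp2) := by
  rw [continuous_iff_continuousAt]
  intro x
  rw [ContinuousAt, Metric.tendsto_nhds]
  intro ε hε
  have h1 : Filter.Tendsto (fun y : ℤ_[p]ˣ => ((x⁻¹ * y : ℤ_[p]ˣ) : ℤ_[p])) (nhds x) (nhds 1) := by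
    have h2 : Continuous (fun y : ℤ_[p]ˣ => ((x⁻¹ * y : ℤ_[p]ˣ) : ℤ_[p])) :=
      Units.continuous_val.comp (continuous_const.mul continuous_id)
    have h3 := h2.tendsto x
    simpa using h3
  rw [Metric.tendsto_nhds] at h1
  filter_upwards [h1 ε hε] with y hy
  rw [dist_eq_norm] at hy ⊢
  have h4 : rootFun hp2 y = rootFun hp2 x * rootFun hp2 (x⁻¹ * y) := by
    rw [← coe_rootHom, ← coe_rootHom, ← coe_rootHom, ← Units.val_mul, ← map_mul]
    congr 2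
    group
  have h5 : rootFun hp2 y - rootFun hp2 x = rootFun hp2 x * (rootFun hp2 (x⁻¹ * y) - 1) := by
    rw [h4]; ring
  rw [h5, norm_mul]
  calc ‖rootFun hp2 x‖ * ‖rootFun hp2 (x⁻¹ * y) - 1‖ ≤ 1 * ‖rootFun hp2 (x⁻¹ * y) - 1‖ :=
        mul_le_mul_of_nonneg_right (PadicInt.norm_le_one _) (norm_nonneg _)
    _ = ‖rootFun hp2 (x⁻¹ * y) - 1‖ := one_mul _
    _ ≤ ‖((x⁻¹ * y : ℤ_[p]ˣ) : ℤ_[p]) - 1‖ := norm_rootFun_sub_one hp2 _
    _ < ε := hy

theorem continuous_rootHom : Continuous (rootHom hp2) := by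
  rw [Units.continuous_iff]
  constructor
  · exact continuous_rootFun hp2
  · have h1 : (fun x : ℤ_[p]ˣ => (((rootHom hp2 x)⁻¹ : ℤ_[p]ˣ) : ℤ_[p])) =
        fun x => rootFun hp2 x⁻¹ := by
      funext x
      rw [← map_inv, coe_rootHom]
    rw [h1]
    exact (continuous_rootFun hp2).comp continuous_inv

end

/-- Lifting the exponent in `ℤ_p`. -/
theorem pow_lower_bound (hp2 : p ≠ 2) {m : ℕ} (hm : m ≠ 0) {K : ℕ} (hK : K ≠ 0) :
    ∃ c : ℝ, 0 < c ∧ ∀ x : ℤ_[p], ‖x - 1‖ = (p : ℝ) ^ (-(m : ℤ)) → c ≤ ‖x ^ K - 1‖ := by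
  obtain ⟨a, K', hK', hKe⟩ := Nat.exists_eq_pow_mul_and_not_dvd hK p hp.out.ne_one
  have hp0 : (0 : ℝ) < p := by exact_mod_cast hp.out.pos
  refine ⟨(p : ℝ) ^ (-(m + a : ℕ) : ℤ), zpow_pos hp0 _, fun x hx => ?_⟩
  have hpr : Prime (p : ℤ_[p]) := PadicInt.prime_p
  have hpo : Odd p := hp.out.odd_of_ne_two hp2
  have hdm : (p : ℤ_[p]) ^ m ∣ x - 1 := by
    rw [← Ideal.mem_span_singleton, ← PadicInt.norm_le_pow_iff_mem_span_pow, hx]
  have hndm : ¬ (p : ℤ_[p]) ^ (m + 1) ∣ x - 1 := by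
    intro h
    rw [← Ideal.mem_span_singleton, ← PadicInt.norm_le_pow_iff_mem_span_pow, hx] at h
    have h2 : (p : ℝ) ^ (-((m + 1 : ℕ) : ℤ)) < (p : ℝ) ^ (-(m : ℤ)) := by
      apply zpow_lt_zpow_right₀ (by exact_mod_cast hp.out.one_lt)
      push_cast; omega
    linarith
  have h1 : (p : ℤ_[p]) ∣ x - 1 := (dvd_pow_self _ hm).trans hdm
  have h2 : ¬ (p : ℤ_[p]) ∣ x := by
    intro h
    have h3 : (p : ℤ_[p]) ∣ 1 := by
      have := dvd_sub h h1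
      simpa using this
    exact hpr.not_unit (isUnit_of_dvd_one h3)
  have h3 : emultiplicity (p : ℤ_[p]) (x ^ K - 1) = ((m + a : ℕ) : ℕ∞) := by
    rw [hKe, pow_mul]
    have h4 := emultiplicity_pow_prime_pow_sub_pow_prime_pow hpr hpo (x := x) (y := 1) h1 h2 a
    rw [one_pow] at h4
    have h5 : (p : ℤ_[p]) ∣ x ^ p ^ a - 1 := by
      have : x - 1 ∣ x ^ p ^ a - 1 := by simpa using sub_dvd_pow_sub_pow x 1 (p ^ a)
      exact h1.trans this
    have h6 : ¬ (p : ℤ_[p]) ∣ x ^ p ^ a := fun h => h2 (hpr.dvd_of_dvd_pow h)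
    have h7 : ¬ (p : ℤ_[p]) ∣ ((K' : ℕ) : ℤ_[p]) := by
      intro h
      rw [← Ideal.mem_span_singleton, ← pow_one (p : ℤ_[p]),
        ← PadicInt.norm_le_pow_iff_mem_span_pow] at h
      have h8 := (PadicInt.norm_natCast_eq_one_iff (p := p) (n := K')).2
        ((Nat.Prime.coprime_iff_not_dvd hp.out).2 hK')
      rw [h8] at h
      have h9 : (p : ℝ) ^ (-((1 : ℕ) : ℤ)) < 1 := by
        rw [Nat.cast_one, zpow_neg_one]
        exact inv_lt_one_of_one_lt₀ (by exact_mod_cast hp.out.one_lt)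
      linarith
    have h8 := emultiplicity_pow_sub_pow_of_prime hpr (x := x ^ p ^ a) (y := 1) h5 h6 h7
    rw [one_pow] at h8
    rw [h8, h4, Nat.cast_add]
    congr 1
    rw [emultiplicity_eq_coe]
    exact ⟨hdm, hndm⟩
  by_contra hlt
  push Not at hlt
  have h4 : (p : ℤ_[p]) ^ (m + a + 1) ∣ x ^ K - 1 := by
    rw [← Ideal.mem_span_singleton, ← PadicInt.norm_le_pow_iff_mem_span_pow,
      PadicInt.norm_le_pow_iff_norm_lt_pow_add_one]
    refine lt_of_lt_of_le hlt (le_of_eq ?_)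
    congr 1
    push_cast; ring
  have h5 := (emultiplicity_eq_coe.1 h3).2
  exact h5 h4

end Q276.HT
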