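import Mathlib
import Pool.Agent.Y802.Cyc
import Pool.Agent.Q276.HT.Root
import Pool.Agent.Q276.HT.NoPeriod

/-!
The character `⟨χ⟩^{-1/2}` of the absolute Galois group of `ℚ`, where `χ` is the `p`-adic
cyclotomic character: ramification, Frobenius eigenvalues, and the restriction to `Gal(ℚ̄_p/ℚ_p)`.
-/

set_option linter.unusedSectionVars false

namespace Q276.HT

open NumberField Polynomial Pool.Agent.W292.FM

attribute [local instance 10] DivisionRing.toRatAlgebra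

variable {p : ℕ} [hp : Fact p.Prime]

/-- the `p`-adic cyclotomic character of the absolute Galois group of `ℚ` -/
noncomputable abbrev chiQ (p : ℕ) [Fact p.Prime] : Gal(AlgebraicClosure ℚ/ℚ) →* ℤ_[p]ˣ :=
  Pool.Agent.Y802.chi ℚ p

/-- the `ℤ_p`-valued character `⟨χ⟩^{-1/2}` -/
noncomputable def rhoZ (hp2 : p ≠ 2) : Gal(AlgebraicClosure ℚ/ℚ) →* ℤ_[p]ˣ :=
  (rootHom hp2).comp ((chiQ p)⁻¹)

theorem continuous_rhoZ (hp2 : p ≠ 2) : Continuous (rhoZ hp2) := by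
  have h1 : Continuous (chiQ p) := Pool.Agent.Y802.continuous_chi ℚ p
  exact (continuous_rootHom hp2).comp h1.inv

theorem chiQ_inertia {q : ℕ} (hq : q.Prime) (hqp : q ≠ p)
    {P : Ideal (𝓞 (AlgebraicClosure ℚ))} (hP : P.IsMaximal) (hqP : (q : 𝓞 (AlgebraicClosure ℚ)) ∈ P)
    {τ : Gal(AlgebraicClosure ℚ/ℚ)} (hτ : ∀ x : 𝓞 (AlgebraicClosure ℚ), τ • x - x ∈ P) :
    chiQ p τ = 1 := by
  have hl : (p : 𝓞 (AlgebraicClosure ℚ)) ∉ P := by
    intro h
    have hc : Nat.Coprime q p := (Nat.coprime_primes hq hp.out).2 hqp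
    have h1 : (1 : 𝓞 (AlgebraicClosure ℚ)) ∈ P := by
      have h2 := Nat.gcd_eq_gcd_ab q p
      rw [hc] at h2
      have h3 : (1 : 𝓞 (AlgebraicClosure ℚ)) = q * ((q.gcdA p : ℤ) : 𝓞 (AlgebraicClosure ℚ)) +
          p * ((q.gcdB p : ℤ) : 𝓞 (AlgebraicClosure ℚ)) := by
        have := congrArg (fun n : ℤ => (n : 𝓞 (AlgebraicClosure ℚ))) h2
        push_cast at this
        exact this
      rw [h3]
      exact add_mem (P.mul_mem_right _ hqP) (P.mul_mem_right _ h)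
    exact hP.ne_top ((Ideal.eq_top_iff_one P).2 h1)
  have h := Pool.Agent.Y802.chi_frob' (K := ℚ) (p := p) (q := 1) hP.isPrime hl (σ := τ)
    (fun x => by rw [pow_one]; exact hτ x)
  apply Units.ext
  rw [Units.val_one]
  exact h.trans Nat.cast_one

theorem chiQ_frob {q : ℕ} (hq : q.Prime) (hqp : q ≠ p)
    {P : Ideal (𝓞 (AlgebraicClosure ℚ))} (hP : P.IsMaximal) (hqP : (q : 𝓞 (AlgebraicClosure ℚ)) ∈ P)
    {σ : Gal(AlgebraicClosure ℚ/ℚ)} (hσ : ∀ x : 𝓞 (AlgebraicClosure ℚ), x - (σ • x) ^ q ∈ P) :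
    (((chiQ p)⁻¹ σ : ℤ_[p]ˣ) : ℤ_[p]) = q := by
  have hl : (p : 𝓞 (AlgebraicClosure ℚ)) ∉ P := by
    intro h
    have hc : Nat.Coprime q p := (Nat.coprime_primes hq hp.out).2 hqp
    have h1 : (1 : 𝓞 (AlgebraicClosure ℚ)) ∈ P := by
      have h2 := Nat.gcd_eq_gcd_ab q p
      rw [hc] at h2
      have h3 : (1 : 𝓞 (AlgebraicClosure ℚ)) = q * ((q.gcdA p : ℤ) : 𝓞 (AlgebraicClosure ℚ)) +
          p * ((q.gcdB p : ℤ) : 𝓞 (AlgebraicClosure ℚ)) := by
        have := congrArg (fun n : ℤ => (n : 𝓞 (AlgebraicClosure ℚ))) h2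
        push_cast at this
        exact this
      rw [h3]
      exact add_mem (P.mul_mem_right _ hqP) (P.mul_mem_right _ h)
    exact hP.ne_top ((Ideal.eq_top_iff_one P).2 h1)
  have h := Pool.Agent.Y802.chi_frob' (K := ℚ) (p := p) (q := q) hP.isPrime hl (σ := σ⁻¹)
    (fun x => by
      have h1 := hσ (σ⁻¹ • x)
      rwa [smul_inv_smul] at h1)
  rw [map_inv] at h
  rw [MonoidHom.inv_apply]
  exact h

/-- the embedding of `ℤ_p` in the algebraic closure of `ℚ_p` -/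
noncomputable def zpAlg (p : ℕ) [Fact p.Prime] : ℤ_[p] →+* PadicAlgCl p :=
  (algebraMap ℚ_[p] (PadicAlgCl p)).comp PadicInt.Coe.ringHom

theorem zpAlg_apply (x : ℤ_[p]) : zpAlg p x = algebraMap ℚ_[p] (PadicAlgCl p) (x : ℚ_[p]) := rfl

/-- Frobenius eigenvalues of `⟨χ⟩^{-1/2}`. -/
theorem rhoZ_frob (hp2 : p ≠ 2) {q : ℕ} (hq : q.Prime) (hqp : q ≠ p)
    {P : Ideal (𝓞 (AlgebraicClosure ℚ))} (hP : P.IsMaximal) (hqP : (q : 𝓞 (AlgebraicClosure ℚ)) ∈ P)
    {σ : Gal(AlgebraicClosure ℚ/ℚ)} (hσ : ∀ x : 𝓞 (AlgebraicClosure ℚ), x - (σ • x) ^ q ∈ P) :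
    (zpAlg p ((rhoZ hp2 σ : ℤ_[p]ˣ) : ℤ_[p])) ^ ex p = (q : PadicAlgCl p) ^ (p - 1) := by
  have h1 := rootHom_pow hp2 ((chiQ p)⁻¹ σ)
  have h2 := congrArg (fun u : ℤ_[p]ˣ => zpAlg p (u : ℤ_[p])) h1
  simp only [Units.val_pow_eq_pow_val, map_pow] at h2
  rw [chiQ_frob hq hqp hP hqP hσ, map_natCast] at h2
  exact h2

/-- a number `a` with `a ^ (2 (p - 1)) = q ^ (p - 1)` is a Weil integer of weight `1` -/
theorem weil_of_pow {q : ℕ} (hq : q.Prime) {a : PadicAlgCl p}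
    (ha : a ^ ex p = (q : PadicAlgCl p) ^ (p - 1)) :
    IsIntegral ℤ a ∧ ∀ z : ℂ, aeval z (minpoly ℚ a) = 0 → ‖z‖ = (q : ℝ) ^ ((1 : ℝ) / 2) := by
  have hp1 : 0 < p - 1 := by have := hp.out.two_le; omega
  have hex : 0 < ex p := by unfold ex; omega
  constructor
  · refine IsIntegral.of_pow hex ?_
    rw [ha]
    exact IsIntegral.pow (isIntegral_natCast q) _
  · intro z hz
    have h1 : minpoly ℚ a ∣ X ^ ex p - C ((q : ℚ) ^ (p - 1)) := by
      apply minpoly.dvd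
      simp only [map_sub, map_pow, aeval_X, map_natCast]
      rw [ha, sub_self]
    obtain ⟨r, hr⟩ := h1
    have h2 := congrArg (aeval z) hr
    rw [map_mul, hz, zero_mul] at h2
    simp only [map_sub, map_pow, aeval_X, map_natCast] at h2
    have h3 : z ^ ex p = (q : ℂ) ^ (p - 1) := sub_eq_zero.1 h2
    have h4 := congrArg norm h3
    rw [norm_pow, norm_pow, Complex.norm_natCast] at h4
    have hq0 : (0 : ℝ) ≤ q := Nat.cast_nonneg q
    have h5 : ((q : ℝ) ^ ((1 : ℝ) / 2)) ^ ex p = (q : ℝ) ^ (p - 1) := by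
      rw [ex, pow_mul, ← Real.sqrt_eq_rpow, Real.sq_sqrt hq0]
    rw [← h5] at h4
    exact (pow_left_inj₀ (norm_nonneg z) (Real.rpow_nonneg hq0 _) hex.ne').1 h4

/-- There is a compatible system of primitive `p`-power roots of unity. -/
theorem exists_z (p : ℕ) [hp : Fact p.Prime] : ∃ z : ℕ → PadicAlgCl p,
    (∀ n, IsPrimitiveRoot (z n) (p ^ n)) ∧ ∀ n, z (n + 1) ^ p = z n := by
  have hroot : ∀ x : PadicAlgCl p, ∃ y, y ^ p = x := fun x =>
    IsAlgClosed.exists_pow_nat_eq x hp.out.pos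
  choose f hf using hroot
  obtain ⟨z₁, hz₁⟩ := HasEnoughRootsOfUnity.exists_primitiveRoot (PadicAlgCl p) p
  let w : ℕ → PadicAlgCl p := fun n => Nat.rec z₁ (fun _ y => f y) n
  have hws : ∀ n, w (n + 1) ^ p = w n := fun n => hf _
  have hw : ∀ n, IsPrimitiveRoot (w n) (p ^ (n + 1)) := by
    intro n
    induction n with
    | zero =>
      change IsPrimitiveRoot z₁ (p ^ (0 + 1))
      rw [zero_add, pow_one]; exact hz₁
    | succ n ih =>
      have h1 : w (n + 1) ^ p ^ (n + 1 + 1) = 1 := by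
        rw [pow_succ', pow_mul, hws]; exact ih.pow_eq_one
      have h2 : ¬ w (n + 1) ^ p ^ (n + 1) = 1 := by
        rw [pow_succ', pow_mul, hws]
        intro h3
        have h4 := (ih.pow_eq_one_iff_dvd _).1 h3
        have h5 := Nat.le_of_dvd (pow_pos hp.out.pos _) h4
        have h6 : p ^ n < p ^ (n + 1) := Nat.pow_lt_pow_right hp.out.one_lt (Nat.lt_succ_self n)
        omega
      rw [← orderOf_eq_prime_pow h2 h1]
      exact IsPrimitiveRoot.orderOf _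
  refine ⟨fun n => match n with | 0 => 1 | (n + 1) => w n, ?_, ?_⟩
  · intro n
    match n with
    | 0 => simp
    | (n + 1) => exact hw n
  · intro n
    match n with
    | 0 =>
      change w 0 ^ p = 1
      exact hz₁.pow_eq_one
    | (n + 1) => exact hws n

/-- Compatibility of the local and global cyclotomic characters. -/
theorem chiQ_eq_chi (ι : AlgebraicClosure ℚ →ₐ[ℚ] PadicAlgCl p) (g : Gal(PadicAlgCl p/ℚ_[p]))
    (r : Gal(AlgebraicClosure ℚ/ℚ)) (hr : ∀ x, ι (r x) = g (ι x)) : chiQ p r = chi g := by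
  apply Units.ext
  refine PadicInt.ext_of_toZModPow.mp fun n ↦ ?_
  obtain ⟨t, ht⟩ := HasEnoughRootsOfUnity.exists_primitiveRoot (AlgebraicClosure ℚ) (p ^ n)
  have hιt : IsPrimitiveRoot (ι t) (p ^ n) := ht.map_of_injective ι.injective
  have h1 : r t = t ^ (((chiQ p r : ℤ_[p]ˣ) : ℤ_[p]).toZModPow n).val :=
    cyclotomicCharacter.spec p (MulSemiringAction.toRingAut Gal(AlgebraicClosure ℚ/ℚ)
      (AlgebraicClosure ℚ) r) t ht.pow_eq_one
  have h2 : g (ι t) = (ι t) ^ (((chi g : ℤ_[p]ˣ) : ℤ_[p]).toZModPow n).val :=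
    cyclotomicCharacter.spec p (g : PadicAlgCl p ≃+* PadicAlgCl p) (ι t) hιt.pow_eq_one
  have h3 := hr t
  rw [h1, h2, map_pow] at h3
  have h4 := modEq_of_pow_eq hιt (pow_ne_zero _ hp.out.ne_zero) h3
  rw [← ZMod.natCast_eq_natCast_iff, ZMod.natCast_zmod_val, ZMod.natCast_zmod_val] at h4
  exact h4

end Q276.HT
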