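import Mathlib
import Pool.Agent.Q276.HT.Root
import Pool.Agent.Q276.HT.NoPeriod

/-!
There is no nonzero period in `B_dR` for the square root of the pro-`p` part of the cyclotomic
character.
-/

set_option linter.unusedSectionVars false
set_option backward.isDefEq.respectTransparency.types true

namespace Q276.HT

open Pool.Agent.W292.FM

variable {p : ℕ} [hp : Fact p.Prime]

theorem chi_eq_one {z : ℕ → PadicAlgCl p} (hz : ∀ n, IsPrimitiveRoot (z n) (p ^ n))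
    {g : Gal(PadicAlgCl p/ℚ_[p])} (hg : ∀ n, g (z n) = z n) : chi g = 1 := by
  apply Units.ext
  rw [← PadicInt.ext_of_toZModPow]
  intro n
  rw [Units.val_one, map_one]
  have h3 := chi_spec hz g n
  rw [hg n] at h3
  have h4 : z n ^ 1 = z n ^ res n (chi g : ℤ_[p]) := by rw [pow_one]; exact h3
  have h5 := modEq_of_pow_eq (hz n) (pow_ne_zero _ hp.out.ne_zero) h4
  rw [← ZMod.natCast_eq_natCast_iff, res, ZMod.natCast_zmod_val, Nat.cast_one] at h5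
  exact h5.symm

theorem norm_chi_sub_one {z : ℕ → PadicAlgCl p} (hz : ∀ n, IsPrimitiveRoot (z n) (p ^ n)) (m : ℕ)
    {g : Gal(PadicAlgCl p/ℚ_[p])} (hg : g (z (m + 1)) = z (m + 1) ^ (1 + p ^ m)) :
    ‖(chi g : ℤ_[p]) - 1‖ = (p : ℝ) ^ (-(m : ℤ)) := by
  have h3 := chi_spec hz g (m + 1)
  rw [hg] at h3
  have h5 := modEq_of_pow_eq (hz (m + 1)) (pow_ne_zero _ hp.out.ne_zero) h3
  rw [← ZMod.natCast_eq_natCast_iff, res, ZMod.natCast_zmod_val] at h5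
  have h6 : (chi g : ℤ_[p]) - ((1 + p ^ m : ℕ) : ℤ_[p]) ∈
      RingHom.ker (PadicInt.toZModPow (p := p) (m + 1)) := by
    rw [RingHom.mem_ker, map_sub, map_natCast, h5, sub_self]
  rw [PadicInt.ker_toZModPow, ← PadicInt.norm_le_pow_iff_mem_span_pow] at h6
  have h7 : (chi g : ℤ_[p]) - 1 = (p : ℤ_[p]) ^ m + ((chi g : ℤ_[p]) - ((1 + p ^ m : ℕ) : ℤ_[p])) := by
    push_cast; ring
  have h8 : ‖(p : ℤ_[p]) ^ m‖ = (p : ℝ) ^ (-(m : ℤ)) := by
    rw [norm_pow, PadicInt.norm_p, inv_pow, zpow_neg, zpow_natCast]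
  have h9 : (p : ℝ) ^ (-((m + 1 : ℕ) : ℤ)) < (p : ℝ) ^ (-(m : ℤ)) := by
    apply zpow_lt_zpow_right₀ (by exact_mod_cast hp.out.one_lt)
    push_cast; omega
  have h10 : ‖(chi g : ℤ_[p]) - ((1 + p ^ m : ℕ) : ℤ_[p])‖ < ‖(p : ℤ_[p]) ^ m‖ := by
    rw [h8]; exact lt_of_le_of_lt h6 h9
  rw [h7, IsUltrametricDist.norm_add_eq_max_of_norm_ne_norm h10.ne', max_eq_left h10.le, h8]

/-- There is no nonzero period in `B_dR` for the square root of the pro-`p` part of the cyclotomic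
character. -/
theorem no_period_half (hp2 : p ≠ 2) {z : ℕ → PadicAlgCl p}
    (hz : ∀ n, IsPrimitiveRoot (z n) (p ^ n)) (hzs : ∀ n, z (n + 1) ^ p = z n)
    (b : Localization (genSub 𝓞_ℂ_[p] p)) (hb : ∀ g : Gal(PadicAlgCl p/ℚ_[p]),
      bdrMap p (intMap p g) b =
        algebraMap ℚ_[p] _ ((rootHom hp2 (chi g) : ℤ_[p]) : ℚ_[p]) * b) : b = 0 := by
  refine no_period hp2 hz hzs (fun g => ((rootHom hp2 (chi g) : ℤ_[p]ˣ) : ℤ_[p])) ?_ ?_ b hb
  · intro g hg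
    rw [chi_eq_one hz hg, map_one, Units.val_one]
  · intro j m hm
    set M : ℤ := ((p - 1 : ℕ) : ℤ) * (1 + 2 * j) with hM
    have hM0 : M ≠ 0 := by
      apply mul_ne_zero
      · have := hp.out.two_le
        have h : p - 1 ≠ 0 := by omega
        exact_mod_cast h
      · omega
    obtain ⟨c, hc0, hc⟩ := pow_lower_bound (p := p) hp2 hm (K := M.natAbs) (by omega)
    refine ⟨c, hc0, fun g hg => ?_⟩
    have h1 := hc _ (norm_chi_sub_one hz m hg)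
    set X : ℤ_[p]ˣ := chi g with hX
    set W : ℤ_[p]ˣ := rootHom hp2 X * X ^ j with hW
    have h2 : W ^ ex p = X ^ M := by
      rw [hW, mul_pow, rootHom_pow, hM, ← zpow_natCast, ← zpow_natCast, ← zpow_mul, ← zpow_add, ex]
      congr 1
      push_cast
      ring
    have h3 : ‖(((W ^ ex p : ℤ_[p]ˣ) : ℤ_[p]) - 1)‖ ≤ ‖(W : ℤ_[p]) - 1‖ := by
      rw [Units.val_pow_eq_pow_val]
      have h5 : (W : ℤ_[p]) ^ ex p - 1 = (∑ j ∈ Finset.range (ex p), (W : ℤ_[p]) ^ j) * (W - 1) :=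
        (geom_sum_mul _ _).symm
      rw [h5, norm_mul]
      exact mul_le_of_le_one_left (norm_nonneg _) (PadicInt.norm_le_one _)
    have h4 : ‖(((X ^ M : ℤ_[p]ˣ) : ℤ_[p]) - 1)‖ = ‖(X : ℤ_[p]) ^ M.natAbs - 1‖ := by
      rcases Int.natAbs_eq M with h5 | h5
      · conv_lhs => rw [h5, zpow_natCast, Units.val_pow_eq_pow_val]
      · conv_lhs => rw [h5, zpow_neg, zpow_natCast]
        set Y : ℤ_[p]ˣ := X ^ M.natAbs with hY
        have h6 : ((Y⁻¹ : ℤ_[p]ˣ) : ℤ_[p]) - 1 = -(((Y⁻¹ : ℤ_[p]ˣ) : ℤ_[p]) * ((Y : ℤ_[p]) - 1)) := by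
          rw [mul_sub, Units.inv_mul]; ring
        rw [h6, norm_neg, norm_mul, PadicInt.norm_units, one_mul, hY, Units.val_pow_eq_pow_val]
    calc c ≤ ‖(X : ℤ_[p]) ^ M.natAbs - 1‖ := h1
      _ = ‖(((W ^ ex p : ℤ_[p]ˣ) : ℤ_[p]) - 1)‖ := by rw [h2, h4]
      _ ≤ ‖(W : ℤ_[p]) - 1‖ := h3
      _ = _ := by rw [hW, Units.val_mul]

end Q276.HT
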