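import Mathlib
import Pool.Agent.Q276.HT.Defs

/-!
# The conditions of the conjecture, for representations of `Gal(ℚ̄/ℚ)`

Ramification, integrality and purity at unramified primes, irreducibility, and the de Rham
condition at `l`, for representations `Gal(ℚ̄/ℚ) → GL_n(ℚ̄_l)`.
-/

namespace Q276.HT

open NumberField Polynomial TensorProduct

attribute [local instance 10] DivisionRing.toRatAlgebra

/-- the absolute Galois group of `ℚ`, with the Krull topology -/
abbrev GQ : Type := Gal(AlgebraicClosure ℚ/ℚ)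

/-- the ring of all algebraic integers -/
abbrev ZBar : Type := 𝓞 (AlgebraicClosure ℚ)

/-- `τ` lies in the inertia group at the maximal ideal `P` of the ring of all algebraic integers -/
def Inertia (P : Ideal ZBar) (τ : GQ) : Prop := ∀ x : ZBar, τ • x - x ∈ P

/-- `σ` is a geometric Frobenius element at the maximal ideal `P` above the prime number `q`: it
induces the inverse of `x ↦ x ^ q` on the residue field -/
def GeometricFrobenius (q : ℕ) (P : Ideal ZBar) (σ : GQ) : Prop :=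
  ∀ x : ZBar, x - (σ • x) ^ q ∈ P

/-- the algebraic number `a` (in `ℚ̄_l`) is an algebraic integer all of whose complex conjugates
have absolute value `q ^ (w / 2)` -/
def WeilInteger {l : ℕ} [Fact l.Prime] (q : ℕ) (w : ℤ) (a : PadicAlgCl l) : Prop :=
  IsIntegral ℤ a ∧ ∀ z : ℂ, aeval z (minpoly ℚ a) = 0 → ‖z‖ = (q : ℝ) ^ ((w : ℝ) / 2)

section Global

variable {l : ℕ} [Fact l.Prime] {n : ℕ}

/-- `ρ` is unramified at the prime number `q` -/
def UnramifiedAt (q : ℕ) (ρ : GQ →* GL (Fin n) (PadicAlgCl l)) : Prop :=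
  ∀ P : Ideal ZBar, P.IsMaximal → (q : ZBar) ∈ P → ∀ τ : GQ, Inertia P τ → ρ τ = 1

/-- At a prime number `q` where `ρ` is unramified (so that the Weil–Deligne representation of `ρ`
at `q` is the restriction of `ρ`, with `N = 0`): it is integral and pure of weight `w`, that is,
every eigenvalue of every geometric Frobenius element is an algebraic integer all of whose
complex conjugates have absolute value `q ^ (w / 2)`. -/
def IntegralPureAt (q : ℕ) (w : ℤ) (ρ : GQ →* GL (Fin n) (PadicAlgCl l)) : Prop :=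
  ∀ P : Ideal ZBar, P.IsMaximal → (q : ZBar) ∈ P → ∀ σ : GQ, GeometricFrobenius q P σ →
    ∀ a : PadicAlgCl l, (ρ σ : Matrix (Fin n) (Fin n) (PadicAlgCl l)).charpoly.IsRoot a →
      WeilInteger q w a

/-- `ρ` is irreducible: the space is nonzero and every stable subspace is zero or everything -/
def Irreducible (ρ : GQ →* GL (Fin n) (PadicAlgCl l)) : Prop :=
  n ≠ 0 ∧ ∀ W : Submodule (PadicAlgCl l) (Fin n → PadicAlgCl l),
    (∀ g, ∀ w ∈ W, (ρ g : Matrix (Fin n) (Fin n) (PadicAlgCl l)).mulVec w ∈ W) → W = ⊥ ∨ W = ⊤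

end Global

section Local

variable (l : ℕ) [Fact l.Prime]

/-- the absolute Galois group of `ℚ_l` -/
abbrev GQl : Type := Gal(PadicAlgCl l/ℚ_[l])

variable {l} {n : ℕ}

/-- `D_dR(V) = (V ⊗_{ℚ_l} B_dR)^{Gal(ℚ̄_l/ℚ_l)}` for the representation `V = ℚ̄_l ^ n` given by
`ρ`, a vector space over `ℚ̄_l` -/
noncomputable def DdR (ρ : GQl l →* GL (Fin n) (PadicAlgCl l)) :
    Submodule (PadicAlgCl l) ((Fin n → PadicAlgCl l) ⊗[ℚ_[l]] BdR l) :=
  ⨅ g : GQl l, LinearMap.eqLocus (AlgebraTensorModule.map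
    (Matrix.mulVecLin (ρ g : Matrix (Fin n) (Fin n) (PadicAlgCl l))) (galB l g)) LinearMap.id

/-- the representation `ρ` of `Gal(ℚ̄_l/ℚ_l)` on `ℚ̄_l ^ n` is de Rham:
`dim_{ℚ̄_l} D_dR(V) = n` -/
def IsDeRham (ρ : GQl l →* GL (Fin n) (PadicAlgCl l)) : Prop :=
  Module.finrank (PadicAlgCl l) (DdR ρ) = n

variable (l)

/-- the homomorphism `Gal(ℚ̄_l/ℚ_l) → Gal(ℚ̄/ℚ)` given by restriction along an embedding
`ι : ℚ̄ → ℚ̄_l`; its image is a decomposition group at `l` -/
noncomputable def decomposition (ι : AlgebraicClosure ℚ →ₐ[ℚ] PadicAlgCl l) : GQl l →* GQ :=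
  letI := ι.toRingHom.toAlgebra
  haveI : IsScalarTower ℚ (AlgebraicClosure ℚ) (PadicAlgCl l) :=
    IsScalarTower.of_algebraMap_eq' ι.comp_algebraMap.symm
  (AlgEquiv.restrictNormalHom (AlgebraicClosure ℚ)).comp (AlgEquiv.restrictScalarsHom ℚ)

theorem decomposition_spec (ι : AlgebraicClosure ℚ →ₐ[ℚ] PadicAlgCl l) (g : GQl l)
    (x : AlgebraicClosure ℚ) : ι (decomposition l ι g x) = g (ι x) := by
  letI := ι.toRingHom.toAlgebra
  haveI : IsScalarTower ℚ (AlgebraicClosure ℚ) (PadicAlgCl l) :=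
    IsScalarTower.of_algebraMap_eq' ι.comp_algebraMap.symm
  exact AlgEquiv.restrictNormal_commutes (AlgEquiv.restrictScalarsHom ℚ g) (AlgebraicClosure ℚ) x

end Local

end Q276.HT
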