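import Mathlib
import Pool.Agent.Q276.HT.Glob
import Pool.Agent.Q276.HT.Half
import Pool.Agent.Q276.HT.Stmt

/-!
# The proof that `⟨χ⟩^{-1/2}` is pure and integral away from `l` but not de Rham at `l`
-/

namespace Q276.HT

open NumberField Polynomial TensorProduct

attribute [local instance 10] DivisionRing.toRatAlgebra

section Proofs

variable {l : ℕ} [Fact l.Prime]

/-- the coordinates of `(v ↦ v) ⊗ f` -/
theorem coord_map {V B : Type*} [AddCommMonoid V] [Module ℚ_[l] V] [AddCommMonoid B]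
    [Module ℚ_[l] B] {ι : Type*} [DecidableEq ι] (ℬ : Module.Basis ι ℚ_[l] V) (f : B →ₗ[ℚ_[l]] B)
    (x : V ⊗[ℚ_[l]] B) (i : ι) :
    TensorProduct.equivFinsuppOfBasisLeft ℬ (f.lTensor V x) i =
      f (TensorProduct.equivFinsuppOfBasisLeft ℬ x i) := by
  induction x using TensorProduct.induction_on with
  | zero => simp
  | tmul v b =>
    rw [LinearMap.lTensor_tmul, TensorProduct.equivFinsuppOfBasisLeft_apply_tmul_apply,
      TensorProduct.equivFinsuppOfBasisLeft_apply_tmul_apply, map_smul]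
  | add x y hx hy => rw [map_add, map_add, Finsupp.add_apply, hx, hy, map_add, Finsupp.add_apply,
      map_add]

theorem no_period_BdR (hl : l ≠ 2) (b : BdR l) (hb : ∀ g : GQl l, galB l g b =
    algebraMap ℚ_[l] (BdR l) (((rootHom hl (chi g) : ℤ_[l]ˣ) : ℤ_[l]) : ℚ_[l]) * b) : b = 0 := by
  obtain ⟨z, hz, hzs⟩ := exists_z l
  exact no_period_half hl hz hzs b hb

variable (hl : l ≠ 2)

/-- the representation `⟨χ⟩^{-1/2}` -/
noncomputable def rho : GQ →* GL (Fin 1) (PadicAlgCl l) :=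
  (Units.map ((Matrix.scalar (Fin 1)).comp (zpAlg l) : ℤ_[l] →+* _).toMonoidHom).comp (rhoZ hl)

theorem rho_apply (σ : GQ) : (rho hl σ : Matrix (Fin 1) (Fin 1) (PadicAlgCl l)) =
    Matrix.scalar (Fin 1) (zpAlg l ((rhoZ hl σ : ℤ_[l]ˣ) : ℤ_[l])) := rfl

theorem continuous_rho : Continuous (rho hl) := by
  refine (Continuous.units_map _ ?_).comp (continuous_rhoZ hl)
  have h1 : Continuous (zpAlg l) :=
    (continuous_algebraMap ℚ_[l] (PadicAlgCl l)).comp continuous_subtype_val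
  exact (continuous_pi fun i => continuous_pi fun j => by
    change Continuous fun x => (Matrix.scalar (Fin 1) (zpAlg l x)) i j
    simp only [Matrix.scalar_apply, Matrix.diagonal_apply]
    split_ifs
    · exact h1
    · exact continuous_const)

theorem irreducible_rho : Irreducible (rho hl) := by
  refine ⟨one_ne_zero, fun W _ => ?_⟩
  by_cases hW : W = ⊥
  · exact Or.inl hW
  · right
    obtain ⟨w, hw, hw0⟩ := W.exists_mem_ne_zero_of_ne_bot hW
    rw [eq_top_iff]
    intro v _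
    have h0 : w 0 ≠ 0 := by
      intro h
      apply hw0
      funext i
      rw [Subsingleton.elim i 0, h]
      rfl
    have hv : v = (v 0 / w 0) • w := by
      funext i
      rw [Subsingleton.elim i 0, Pi.smul_apply, smul_eq_mul, div_mul_cancel₀ _ h0]
    rw [hv]
    exact W.smul_mem _ hw

theorem unramified_rho {q : ℕ} (hq : q.Prime) (hql : q ≠ l) : UnramifiedAt q (rho hl) := by
  intro P hP hqP τ hτ
  have h : rhoZ hl τ = 1 := by
    rw [rhoZ, MonoidHom.comp_apply, MonoidHom.inv_apply, chiQ_inertia hq hql hP hqP hτ, inv_one,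
      map_one]
  rw [rho, MonoidHom.comp_apply, h, map_one]

theorem pure_rho {q : ℕ} (hq : q.Prime) (hql : q ≠ l) : IntegralPureAt q 1 (rho hl) := by
  intro P hP hqP σ hσ a ha
  rw [Polynomial.IsRoot, Matrix.eval_charpoly, rho_apply, ← map_sub, Matrix.scalar_apply,
    Matrix.det_diagonal, Fin.prod_univ_one, sub_eq_zero] at ha
  have h := weil_of_pow hq (rhoZ_frob hl hq hql hP hqP hσ)
  rw [← ha] at h
  refine ⟨h.1, fun z hz => ?_⟩
  rw [h.2 z hz, Int.cast_one]

theorem dDR_rho (ι : AlgebraicClosure ℚ →ₐ[ℚ] PadicAlgCl l) :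
    DdR ((rho hl).comp (decomposition l ι)) = ⊥ := by
  classical
  rw [eq_bot_iff]
  intro x hx
  rw [Submodule.mem_bot]
  let ℬ := Module.Basis.ofVectorSpace ℚ_[l] (Fin 1 → PadicAlgCl l)
  rw [← LinearEquiv.map_eq_zero_iff (TensorProduct.equivFinsuppOfBasisLeft ℬ)]
  ext i
  rw [Finsupp.zero_apply]
  refine no_period_BdR hl _ fun g => ?_
  set u : ℤ_[l]ˣ := rootHom hl (chi g) with hu
  have hr : rhoZ hl (decomposition l ι g) = u⁻¹ := by
    rw [rhoZ, MonoidHom.comp_apply, MonoidHom.inv_apply,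
      chiQ_eq_chi ι g _ (decomposition_spec l ι g), map_inv]
  have h1 : ∀ y : (Fin 1 → PadicAlgCl l) ⊗[ℚ_[l]] BdR l, AlgebraTensorModule.map
      (Matrix.mulVecLin (((rho hl).comp (decomposition l ι)) g :
        Matrix (Fin 1) (Fin 1) (PadicAlgCl l))) (galB l g) y =
      (((u⁻¹ : ℤ_[l]ˣ) : ℤ_[l]) : ℚ_[l]) • ((galB l g).lTensor (Fin 1 → PadicAlgCl l) y) := by
    intro y
    induction y using TensorProduct.induction_on with
    | zero => simp
    | tmul v b =>
      rw [AlgebraTensorModule.map_tmul, LinearMap.lTensor_tmul, TensorProduct.smul_tmul']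
      congr 1
      rw [MonoidHom.comp_apply, Matrix.mulVecLin_apply, rho_apply, hr, zpAlg_apply,
        Matrix.scalar_apply]
      funext i
      rw [Matrix.mulVec_diagonal, Pi.smul_apply, Algebra.smul_def]
    | add y y' hy hy' => rw [map_add, hy, hy', map_add, smul_add]
  have h2 : AlgebraTensorModule.map (Matrix.mulVecLin (((rho hl).comp (decomposition l ι)) g :
      Matrix (Fin 1) (Fin 1) (PadicAlgCl l))) (galB l g) x = x :=
    (Submodule.mem_iInf _).1 hx g
  rw [h1] at h2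
  have h3 := congrArg (fun y => TensorProduct.equivFinsuppOfBasisLeft ℬ y i) h2
  simp only [map_smul, Finsupp.smul_apply] at h3
  rw [coord_map] at h3
  have h4 : (((u : ℤ_[l]ˣ) : ℤ_[l]) : ℚ_[l]) * (((u⁻¹ : ℤ_[l]ˣ) : ℤ_[l]) : ℚ_[l]) = 1 := by
    rw [← PadicInt.coe_mul, Units.mul_inv, PadicInt.coe_one]
  set b : BdR l := TensorProduct.equivFinsuppOfBasisLeft ℬ x i with hb
  calc galB l g b = ((((u : ℤ_[l]ˣ) : ℤ_[l]) : ℚ_[l]) * (((u⁻¹ : ℤ_[l]ˣ) : ℤ_[l]) : ℚ_[l])) •
        galB l g b := by rw [h4, one_smul]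
    _ = (((u : ℤ_[l]ˣ) : ℤ_[l]) : ℚ_[l]) • ((((u⁻¹ : ℤ_[l]ˣ) : ℤ_[l]) : ℚ_[l]) • galB l g b) := by
        rw [smul_smul]
    _ = (((u : ℤ_[l]ˣ) : ℤ_[l]) : ℚ_[l]) • b := by
        congr 1
    _ = _ := by rw [Algebra.smul_def]

end Proofs


end Q276.HT
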